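import Pool.Agent.W930.ND.Spl

/-!
# Primes at which two given polynomials split over the `p`-adic integers
-/

set_option autoImplicit false

namespace Pool.Agent.H43R

open Polynomial

/-- `P` is a product of linear polynomials over the `p`-adic integers, and its leading coefficient
is prime to `p` -/
def SplitAt (p : ℕ) [Fact p.Prime] (P : ℤ[X]) : Prop :=
  ¬ (p : ℤ) ∣ P.leadingCoeff ∧ ∃ A : Multiset ℤ_[p],
    P.map (Int.castRingHom ℤ_[p]) =
      C ((P.leadingCoeff : ℤ) : ℤ_[p]) * (A.map (fun α => X - C α)).prod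

lemma isUnit_lc {p : ℕ} [Fact p.Prime] {c : ℤ} (h : ¬ (p : ℤ) ∣ c) : IsUnit ((c : ℤ) : ℤ_[p]) := by
  rw [PadicInt.isUnit_iff]
  have h6 : ¬ ‖((c : ℤ) : ℤ_[p])‖ < 1 := by
    rw [PadicInt.norm_int_lt_one_iff_dvd]
    exact h
  exact le_antisymm (PadicInt.norm_le_one _) (not_lt.1 h6)

lemma splitAt_of {p : ℕ} [Fact p.Prime] {F : Subfield ℂ} (e : F →+* ℚ_[p]) {P : ℤ[X]}
    (hP : P ≠ 0) (hroots : ∀ α ∈ (P.map (Int.castRingHom ℂ)).roots, α ∈ F)
    (hp : ¬ (p : ℤ) ∣ P.leadingCoeff) : SplitAt p P := by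
  classical
  refine ⟨hp, ?_⟩
  set Pc := P.map (Int.castRingHom ℂ) with hPc
  have hinj : Function.Injective (Int.castRingHom ℂ) := (Int.castRingHom ℂ).injective_int
  have hlc : Pc.leadingCoeff = ((P.leadingCoeff : ℤ) : ℂ) := by
    rw [hPc, leadingCoeff_map_of_injective hinj]
    rfl
  have hsplit : Pc = C Pc.leadingCoeff * (Pc.roots.map (fun α => X - C α)).prod :=
    (IsAlgClosed.splits Pc).eq_prod_roots
  set A : Multiset F := Pc.roots.attach.map (fun α => (⟨α.1, hroots α.1 α.2⟩ : F)) with hA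
  have hAc : A.map (fun x : F => (x : ℂ)) = Pc.roots := by
    rw [hA, Multiset.map_map]
    exact Multiset.attach_map_val _
  have h1 : P.map (Int.castRingHom F) =
      C ((P.leadingCoeff : ℤ) : F) * (A.map (fun x => X - C x)).prod := by
    apply Polynomial.map_injective F.subtype F.subtype.injective
    rw [Polynomial.map_map, Polynomial.map_mul, Polynomial.map_multiset_prod, Multiset.map_map,
      map_C]
    have e1 : F.subtype.comp (Int.castRingHom F) = Int.castRingHom ℂ := RingHom.ext_int _ _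
    have e2 : F.subtype ((P.leadingCoeff : ℤ) : F) = ((P.leadingCoeff : ℤ) : ℂ) := map_intCast _ _
    rw [e1, e2, ← hPc]
    conv_lhs => rw [hsplit, hlc, ← hAc, Multiset.map_map]
    congr 2
    refine Multiset.map_congr rfl fun x _ => ?_
    simp
  have h2 : P.map (Int.castRingHom ℚ_[p]) =
      C ((P.leadingCoeff : ℤ) : ℚ_[p]) * (A.map (fun x => X - C (e x))).prod := by
    have e1 := congrArg (Polynomial.map e) h1
    rw [Polynomial.map_map, Polynomial.map_mul, Polynomial.map_multiset_prod, Multiset.map_map,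
      map_C] at e1
    have e2 : e.comp (Int.castRingHom F) = Int.castRingHom ℚ_[p] := RingHom.ext_int _ _
    have e3 : e ((P.leadingCoeff : ℤ) : F) = ((P.leadingCoeff : ℤ) : ℚ_[p]) := map_intCast _ _
    rw [e2, e3] at e1
    rw [e1]
    congr 2
    refine Multiset.map_congr rfl fun x _ => ?_
    simp
  -- integrality
  have h3 : ∀ x ∈ A, ∃ y : ℤ_[p], (y : ℚ_[p]) = e x := by
    intro x hx
    have hroot : (P.map (Int.castRingHom ℚ_[p])).eval (e x) = 0 := by
      rw [h2, eval_mul, eval_multiset_prod, Multiset.map_map]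
      have : (0 : ℚ_[p]) ∈ A.map ((fun q : ℚ_[p][X] => q.eval (e x)) ∘ fun x => X - C (e x)) := by
        rw [Multiset.mem_map]
        exact ⟨x, hx, by simp⟩
      rw [Multiset.prod_eq_zero this, mul_zero]
    obtain ⟨u, hu⟩ := isUnit_lc hp
    have hPz : (P.map (Int.castRingHom ℤ_[p])).leadingCoeff = ((P.leadingCoeff : ℤ) : ℤ_[p]) := by
      rw [leadingCoeff_map_of_injective (Int.castRingHom ℤ_[p]).injective_int]
      rfl
    have hmonic : (C ((u⁻¹ : ℤ_[p]ˣ) : ℤ_[p]) * P.map (Int.castRingHom ℤ_[p])).Monic := by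
      unfold Monic
      rw [leadingCoeff_mul, leadingCoeff_C, hPz, ← hu, Units.inv_mul]
    have hint : IsIntegral ℤ_[p] (e x) := by
      refine ⟨_, hmonic, ?_⟩
      rw [eval₂_mul, eval₂_map]
      have e1 : (algebraMap ℤ_[p] ℚ_[p]).comp (Int.castRingHom ℤ_[p]) =
          Int.castRingHom ℚ_[p] := RingHom.ext_int _ _
      rw [eval_map] at hroot
      rw [e1, hroot, mul_zero]
    obtain ⟨y, hy⟩ := IsIntegrallyClosed.isIntegral_iff.1 hint
    exact ⟨y, hy⟩
  choose! w hw using h3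
  refine ⟨A.map w, ?_⟩
  apply Polynomial.map_injective (algebraMap ℤ_[p] ℚ_[p]) (FaithfulSMul.algebraMap_injective _ _)
  rw [Polynomial.map_map, Polynomial.map_mul, Polynomial.map_multiset_prod, Multiset.map_map,
    Multiset.map_map, map_C]
  have e1 : (algebraMap ℤ_[p] ℚ_[p]).comp (Int.castRingHom ℤ_[p]) =
      Int.castRingHom ℚ_[p] := RingHom.ext_int _ _
  have e2 : (algebraMap ℤ_[p] ℚ_[p]) ((P.leadingCoeff : ℤ) : ℤ_[p]) =
      ((P.leadingCoeff : ℤ) : ℚ_[p]) := map_intCast _ _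
  rw [e1, e2, h2]
  congr 2
  refine Multiset.map_congr rfl fun x hx => ?_
  simp only [Function.comp_apply, Polynomial.map_sub, map_X, map_C]
  rw [← hw x hx]
  rfl

/-- **Splitting primes.** -/
theorem exists_split (P Q : ℤ[X]) (hP : P ≠ 0) (hQ : Q ≠ 0) (N : ℕ) :
    ∃ (p : ℕ) (_ : Fact p.Prime), N < p ∧ SplitAt p P ∧ SplitAt p Q := by
  classical
  set s : Finset ℂ := (P.map (Int.castRingHom ℂ)).roots.toFinset ∪
    (Q.map (Int.castRingHom ℂ)).roots.toFinset with hs
  obtain ⟨K, hK, hK', S, h⟩ := H927R2.RD.exists_padic_embedding s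
  obtain ⟨p, hpS', hp⟩ := W930.ND.exists_degOne K
    ((S ∪ Finset.range (N + 1)) ∪ (P.leadingCoeff * Q.leadingCoeff).natAbs.primeFactors)
  rw [Finset.mem_union, Finset.mem_union, not_or, not_or, Finset.mem_range] at hpS'
  obtain ⟨⟨hpS, hpN⟩, hpc⟩ := hpS'
  have : Fact p.Prime := ⟨hp.1⟩
  have hlc : P.leadingCoeff * Q.leadingCoeff ≠ 0 :=
    mul_ne_zero (leadingCoeff_ne_zero.2 hP) (leadingCoeff_ne_zero.2 hQ)
  have hnd : ¬ (p : ℤ) ∣ P.leadingCoeff * Q.leadingCoeff := by
    intro hdv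
    apply hpc
    rw [Nat.mem_primeFactors]
    exact ⟨hp.1, Int.natCast_dvd.1 hdv, Int.natAbs_ne_zero.2 hlc⟩
  obtain ⟨e⟩ := h p hpS hp
  refine ⟨p, inferInstance, by omega, splitAt_of e hP (fun α hα => ?_) (fun h => hnd (h.mul_right _)),
    splitAt_of e hQ (fun α hα => ?_) (fun h => hnd (h.mul_left _))⟩
  · refine Subfield.subset_closure ?_
    rw [hs, Finset.mem_coe, Finset.mem_union, Multiset.mem_toFinset]
    exact Or.inl hα
  · refine Subfield.subset_closure ?_
    rw [hs, Finset.mem_coe, Finset.mem_union, Multiset.mem_toFinset, Multiset.mem_toFinset]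
    exact Or.inr hα

end Pool.Agent.H43R
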