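import Pool.Agent.H43R.Hyp.HA

/-!
# Valuations of products of values of polynomials
-/

set_option autoImplicit false

namespace Pool.Agent.H43R

open Polynomial

variable {p : ℕ} [Fact p.Prime]

/-- the number of the elements of a residue class in an interval -/
lemma card_class (n g m v : ℕ) (hm : 0 < m) :
    g / m ≤ ((Finset.Ico n (n + g)).filter (fun x => x ≡ v [MOD m])).card ∧
      ((Finset.Ico n (n + g)).filter (fun x => x ≡ v [MOD m])).card ≤ g / m + 1 := by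
  have h := Nat.Ico_filter_modEq_card n (n + g) hm v
  set q := g / m with hq
  have hmQ : (0 : ℚ) < m := by exact_mod_cast hm
  have h1 : (q : ℚ) ≤ (g : ℚ) / m := by
    rw [le_div_iff₀ hmQ]
    exact_mod_cast Nat.div_mul_le_self g m
  have h2 : (g : ℚ) / m ≤ (q + 1 : ℕ) := by
    rw [div_le_iff₀ hmQ]
    have h0 : g ≤ (q + 1) * m := ((Nat.div_lt_iff_lt_mul hm).1 (Nat.lt_succ_self _)).le
    exact_mod_cast h0
  have h3 : (((n + g : ℕ) : ℚ) - v) / m = ((n : ℚ) - v) / m + (g : ℚ) / m := by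
    push_cast
    ring
  rw [h3] at h
  have h4 : ⌈((n : ℚ) - v) / m⌉ + (q : ℤ) ≤ ⌈((n : ℚ) - v) / m + (g : ℚ) / m⌉ := by
    rw [← Int.ceil_add_natCast]
    exact Int.ceil_mono (by linarith)
  have h5 : ⌈((n : ℚ) - v) / m + (g : ℚ) / m⌉ ≤ ⌈((n : ℚ) - v) / m⌉ + ((q + 1 : ℕ) : ℤ) := by
    rw [← Int.ceil_add_natCast]
    exact Int.ceil_mono (by linarith)
  have h6 : (0 : ℤ) ≤ (q : ℤ) := Int.natCast_nonneg q
  constructor
  · have : (q : ℤ) ≤ (((Finset.Ico n (n + g)).filter (fun x => x ≡ v [MOD m])).card : ℤ) := by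
      rw [h]
      exact le_max_of_le_left (by linarith)
    exact_mod_cast this
  · have : (((Finset.Ico n (n + g)).filter (fun x => x ≡ v [MOD m])).card : ℤ) ≤
        ((q + 1 : ℕ) : ℤ) := by
      rw [h]
      refine max_le (by linarith) (by positivity)
    exact_mod_cast this

lemma dvd_iff_modEq (α : ℤ_[p]) (k j : ℕ) :
    (p : ℤ_[p]) ^ k ∣ (j : ℤ_[p]) - α ↔ j ≡ α.appr k [MOD p ^ k] := by
  have h1 : (p : ℤ_[p]) ^ k ∣ α - (α.appr k : ℤ_[p]) :=
    Ideal.mem_span_singleton.1 (PadicInt.appr_spec k α)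
  have h2 : (p : ℤ_[p]) ^ k ∣ (j : ℤ_[p]) - α ↔
      (p : ℤ_[p]) ^ k ∣ (((j : ℤ) - (α.appr k : ℤ) : ℤ) : ℤ_[p]) := by
    have e1 : (((j : ℤ) - (α.appr k : ℤ) : ℤ) : ℤ_[p]) =
        ((j : ℤ_[p]) - α) + (α - (α.appr k : ℤ_[p])) := by
      push_cast
      ring
    rw [e1]
    exact (dvd_add_left h1).symm
  rw [h2, PadicInt.pow_p_dvd_int_iff, Nat.ModEq.comm, Nat.modEq_iff_dvd]
  push_cast
  rfl

lemma card_pow_dvd {x : ℤ_[p]} (hx : x ≠ 0) (κ : ℕ) [DecidablePred fun k => (p : ℤ_[p]) ^ k ∣ x] :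
    ((Finset.Icc 1 κ).filter (fun k => (p : ℤ_[p]) ^ k ∣ x)).card = min κ x.valuation := by
  have h1 : (Finset.Icc 1 κ).filter (fun k => (p : ℤ_[p]) ^ k ∣ x) =
      Finset.Icc 1 (min κ x.valuation) := by
    ext k
    rw [Finset.mem_filter, Finset.mem_Icc, Finset.mem_Icc, ← Ideal.mem_span_singleton,
      PadicInt.mem_span_pow_iff_le_valuation x hx, le_min_iff]
    tauto
  rw [h1, Nat.card_Icc]
  omega

lemma double_count (α : ℤ_[p]) (n g κ : ℕ)
    (h : ∀ j ∈ Finset.Ico n (n + g), (j : ℤ_[p]) - α ≠ 0) :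
    ∑ j ∈ Finset.Ico n (n + g), min κ ((j : ℤ_[p]) - α).valuation =
      ∑ k ∈ Finset.Icc 1 κ,
        ((Finset.Ico n (n + g)).filter (fun j => j ≡ α.appr k [MOD p ^ k])).card := by
  classical
  have h1 : ∀ j ∈ Finset.Ico n (n + g), min κ ((j : ℤ_[p]) - α).valuation =
      ∑ k ∈ Finset.Icc 1 κ, if (p : ℤ_[p]) ^ k ∣ (j : ℤ_[p]) - α then 1 else 0 := by
    intro j hj
    rw [← card_pow_dvd (h j hj), Finset.card_filter]
  rw [Finset.sum_congr rfl h1, Finset.sum_comm]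
  refine Finset.sum_congr rfl fun k _ => ?_
  rw [Finset.card_filter]
  refine Finset.sum_congr rfl fun j _ => ?_
  simp only [dvd_iff_modEq]

lemma sum_val_lower (α : ℤ_[p]) (n g κ : ℕ)
    (h : ∀ j ∈ Finset.Ico n (n + g), (j : ℤ_[p]) - α ≠ 0) :
    ∑ k ∈ Finset.Icc 1 κ, g / p ^ k ≤
      ∑ j ∈ Finset.Ico n (n + g), ((j : ℤ_[p]) - α).valuation := by
  have hp : 0 < p := (Fact.out : p.Prime).pos
  calc ∑ k ∈ Finset.Icc 1 κ, g / p ^ k ≤ ∑ k ∈ Finset.Icc 1 κ,
        ((Finset.Ico n (n + g)).filter (fun j => j ≡ α.appr k [MOD p ^ k])).card :=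
        Finset.sum_le_sum fun k _ => (card_class n g (p ^ k) _ (by positivity)).1
    _ = ∑ j ∈ Finset.Ico n (n + g), min κ ((j : ℤ_[p]) - α).valuation :=
        (double_count α n g κ h).symm
    _ ≤ _ := Finset.sum_le_sum fun j _ => min_le_right _ _

lemma sum_val_upper (α : ℤ_[p]) (n g κ : ℕ)
    (h : ∀ j ∈ Finset.Ico n (n + g), (j : ℤ_[p]) - α ≠ 0)
    (hκ : ∀ j ∈ Finset.Ico n (n + g), ((j : ℤ_[p]) - α).valuation ≤ κ) :
    ∑ j ∈ Finset.Ico n (n + g), ((j : ℤ_[p]) - α).valuation ≤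
      (∑ k ∈ Finset.Icc 1 κ, g / p ^ k) + κ := by
  have hp : 0 < p := (Fact.out : p.Prime).pos
  calc ∑ j ∈ Finset.Ico n (n + g), ((j : ℤ_[p]) - α).valuation =
        ∑ j ∈ Finset.Ico n (n + g), min κ ((j : ℤ_[p]) - α).valuation :=
        Finset.sum_congr rfl fun j hj => (min_eq_right (hκ j hj)).symm
    _ = ∑ k ∈ Finset.Icc 1 κ,
        ((Finset.Ico n (n + g)).filter (fun j => j ≡ α.appr k [MOD p ^ k])).card :=
        double_count α n g κ h
    _ ≤ ∑ k ∈ Finset.Icc 1 κ, (g / p ^ k + 1) :=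
        Finset.sum_le_sum fun k _ => (card_class n g (p ^ k) _ (by positivity)).2
    _ = _ := by
        rw [Finset.sum_add_distrib]
        simp

lemma val_prod (A : Multiset ℤ_[p]) (h : ∀ x ∈ A, x ≠ 0) :
    A.prod ≠ 0 ∧ A.prod.valuation = (A.map PadicInt.valuation).sum := by
  induction A using Multiset.induction_on with
  | empty =>
    refine ⟨by simp, ?_⟩
    simp
  | cons a A ih =>
    obtain ⟨h1, h2⟩ := ih fun x hx => h x (Multiset.mem_cons_of_mem hx)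
    have ha := h a (Multiset.mem_cons_self a A)
    rw [Multiset.prod_cons, Multiset.map_cons, Multiset.sum_cons]
    exact ⟨mul_ne_zero ha h1, by rw [PadicInt.valuation_mul ha h1, h2]⟩

lemma sum_ms_lower {ι : Type*} (A : Multiset ι) (I : Finset ℕ) (f : ι → ℕ → ℕ) (L : ℕ)
    (h : ∀ a ∈ A, L ≤ ∑ j ∈ I, f a j) :
    A.card * L ≤ ∑ j ∈ I, (A.map (fun a => f a j)).sum := by
  induction A using Multiset.induction_on with
  | empty => simp
  | cons a A ih =>
    simp only [Multiset.card_cons, Multiset.map_cons, Multiset.sum_cons, Finset.sum_add_distrib]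
    have h1 := ih fun x hx => h x (Multiset.mem_cons_of_mem hx)
    have h2 := h a (Multiset.mem_cons_self a A)
    linarith

lemma sum_ms_upper {ι : Type*} (A : Multiset ι) (I : Finset ℕ) (f : ι → ℕ → ℕ) (L : ℕ)
    (h : ∀ a ∈ A, ∑ j ∈ I, f a j ≤ L) :
    ∑ j ∈ I, (A.map (fun a => f a j)).sum ≤ A.card * L := by
  induction A using Multiset.induction_on with
  | empty => simp
  | cons a A ih =>
    simp only [Multiset.card_cons, Multiset.map_cons, Multiset.sum_cons, Finset.sum_add_distrib]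
    have h1 := ih fun x hx => h x (Multiset.mem_cons_of_mem hx)
    have h2 := h a (Multiset.mem_cons_self a A)
    linarith

/-- the valuation of the values of a polynomial -/
lemma split_val {P : ℤ[X]} {A : Multiset ℤ_[p]} (hlc : ¬ (p : ℤ) ∣ P.leadingCoeff)
    (hA : P.map (Int.castRingHom ℤ_[p]) =
      C ((P.leadingCoeff : ℤ) : ℤ_[p]) * (A.map (fun α => X - C α)).prod) :
    A.card = P.natDegree ∧ ∀ j : ℕ, P.eval (j : ℤ) ≠ 0 →
      (∀ α ∈ A, (j : ℤ_[p]) - α ≠ 0) ∧ (((P.eval (j : ℤ) : ℤ) : ℤ_[p])).valuation =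
        (A.map (fun α => ((j : ℤ_[p]) - α).valuation)).sum := by
  have hu := isUnit_lc hlc
  constructor
  · have h1 := congrArg natDegree hA
    rw [natDegree_map_eq_of_injective (Int.castRingHom ℤ_[p]).injective_int,
      natDegree_C_mul hu.ne_zero, natDegree_multiset_prod_X_sub_C_eq_card] at h1
    exact h1.symm
  · intro j hj
    have h1 : ((P.eval (j : ℤ) : ℤ) : ℤ_[p]) = ((P.leadingCoeff : ℤ) : ℤ_[p]) *
        (A.map (fun α => (j : ℤ_[p]) - α)).prod := by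
      have e1 := congrArg (eval (j : ℤ_[p])) hA
      rw [eval_mul, eval_C, eval_multiset_prod, Multiset.map_map, eval_map] at e1
      have e2 : eval₂ (Int.castRingHom ℤ_[p]) (j : ℤ_[p]) P = ((P.eval (j : ℤ) : ℤ) : ℤ_[p]) := by
        have := eval₂_at_intCast (Int.castRingHom ℤ_[p]) (p := P) (n := (j : ℤ))
        simp at this ⊢
      rw [e2] at e1
      rw [e1]
      congr 2
      refine Multiset.map_congr rfl fun x _ => ?_
      simp
    have h0 : ((P.eval (j : ℤ) : ℤ) : ℤ_[p]) ≠ 0 := by exact_mod_cast hj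
    rw [h1] at h0
    have h2 : ∀ α ∈ A, (j : ℤ_[p]) - α ≠ 0 := by
      intro α hα hcon
      apply right_ne_zero_of_mul h0
      rw [Multiset.prod_eq_zero_iff, Multiset.mem_map]
      exact ⟨α, hα, hcon⟩
    refine ⟨h2, ?_⟩
    have h3 := val_prod (A.map (fun α => (j : ℤ_[p]) - α)) (by
      intro x hx
      obtain ⟨α, hα, rfl⟩ := Multiset.mem_map.1 hx
      exact h2 α hα)
    rw [h1, PadicInt.valuation_mul hu.ne_zero h3.1, h3.2, Multiset.map_map]
    have h4 : (((P.leadingCoeff : ℤ) : ℤ_[p])).valuation = 0 := by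
      have e1 := PadicInt.isUnit_iff.1 hu
      rw [PadicInt.norm_eq_zpow_neg_valuation hu.ne_zero] at e1
      by_contra hcon
      have hp1 : (1 : ℝ) < p := by exact_mod_cast (Fact.out : p.Prime).one_lt
      have e2 : (p : ℝ) ^ (-(((P.leadingCoeff : ℤ) : ℤ_[p]).valuation : ℤ)) < 1 :=
        zpow_lt_one_of_neg₀ hp1 (by omega)
      linarith
    rw [h4, zero_add]
    rfl

/-- **The valuations of products of values over long intervals.** -/
theorem val_diff {P Q : ℤ[X]} (hP : SplitAt p P) (hQ : SplitAt p Q)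
    (hd : Q.natDegree < P.natDegree) {n g κ : ℕ} (hκ1 : 1 ≤ κ)
    (hP0 : ∀ j ∈ Finset.Ico n (n + g), P.eval (j : ℤ) ≠ 0)
    (hQ0 : ∀ j ∈ Finset.Ico n (n + g), Q.eval (j : ℤ) ≠ 0)
    (hκ : ∀ j ∈ Finset.Ico n (n + g), (((Q.eval (j : ℤ) : ℤ) : ℤ_[p])).valuation ≤ κ) :
    ∑ j ∈ Finset.Ico n (n + g), (((Q.eval (j : ℤ) : ℤ) : ℤ_[p])).valuation + g / p ≤
      ∑ j ∈ Finset.Ico n (n + g), (((P.eval (j : ℤ) : ℤ) : ℤ_[p])).valuation +
        Q.natDegree * κ := by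
  obtain ⟨hP1, A, hA⟩ := hP
  obtain ⟨hQ1, B, hB⟩ := hQ
  obtain ⟨hAc, hA2⟩ := split_val hP1 hA
  obtain ⟨hBc, hB2⟩ := split_val hQ1 hB
  set I := Finset.Ico n (n + g) with hI
  set S₀ := ∑ k ∈ Finset.Icc 1 κ, g / p ^ k with hS₀
  have h1 : P.natDegree * S₀ ≤ ∑ j ∈ I, (((P.eval (j : ℤ) : ℤ) : ℤ_[p])).valuation := by
    rw [Finset.sum_congr rfl fun j hj => (hA2 j (hP0 j hj)).2, ← hAc]
    exact sum_ms_lower A I _ _ fun α hα =>
      sum_val_lower α n g κ fun j hj => (hA2 j (hP0 j hj)).1 α hα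
  have h2 : ∑ j ∈ I, (((Q.eval (j : ℤ) : ℤ) : ℤ_[p])).valuation ≤
      Q.natDegree * (S₀ + κ) := by
    rw [Finset.sum_congr rfl fun j hj => (hB2 j (hQ0 j hj)).2, ← hBc]
    refine sum_ms_upper B I _ _ fun α hα =>
      sum_val_upper α n g κ (fun j hj => (hB2 j (hQ0 j hj)).1 α hα) fun j hj => ?_
    refine le_trans ?_ (hκ j hj)
    rw [(hB2 j (hQ0 j hj)).2]
    exact Multiset.single_le_sum (fun _ _ => Nat.zero_le _) _ (Multiset.mem_map_of_mem _ hα)
  have h3 : g / p ≤ S₀ := by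
    have := Finset.single_le_sum (f := fun k => g / p ^ k) (fun _ _ => Nat.zero_le _)
      (Finset.mem_Icc.2 ⟨le_rfl, hκ1⟩)
    simpa using this
  have h4 : (Q.natDegree + 1) * S₀ ≤ P.natDegree * S₀ := Nat.mul_le_mul_right _ hd
  nlinarith

end Pool.Agent.H43R
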