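import Pool.Agent.H43R.Hyp.HB

/-!
# The `p`-adic part: long gaps
-/

set_option autoImplicit false

namespace Pool.Agent.H43R

open Polynomial Filter

variable {p : ℕ} [Fact p.Prime]

lemma exp_beats (C k : ℕ) : ∃ e₀ : ℕ, ∀ e, e₀ ≤ e → C * e ^ k < 2 ^ e := by
  have h := (tendsto_pow_const_div_const_pow_of_one_lt k (r := (2 : ℝ)) (by norm_num)).const_mul
    (C : ℝ)
  rw [mul_zero] at h
  obtain ⟨e₀, he⟩ := eventually_atTop.1 (h.eventually_lt_const (show (0 : ℝ) < 1 by norm_num))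
  refine ⟨e₀, fun e hle => ?_⟩
  have h1 := he e hle
  have h2 : (0 : ℝ) < 2 ^ e := by positivity
  have h3 : (C : ℝ) * ((e : ℝ) ^ k / 2 ^ e) = (C * (e : ℝ) ^ k) / 2 ^ e := by ring
  rw [h3, div_lt_one h2] at h1
  exact_mod_cast h1

lemma abs_eval_le (Q : ℤ[X]) : ∃ C : ℕ, ∀ j M : ℕ, j < M →
    (Q.eval (j : ℤ)).natAbs ≤ C * M ^ Q.natDegree := by
  refine ⟨∑ i ∈ Finset.range (Q.natDegree + 1), (Q.coeff i).natAbs, fun j M hj => ?_⟩
  rw [eval_eq_sum_range]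
  refine (Int.natAbs_sum_le _ _).trans ?_
  rw [Finset.sum_mul]
  refine Finset.sum_le_sum fun i hi => ?_
  rw [Int.natAbs_mul, Int.natAbs_pow, Int.natAbs_natCast]
  refine Nat.mul_le_mul_left _ ?_
  have hi' : i ≤ Q.natDegree := by
    have := Finset.mem_range.1 hi
    omega
  exact (Nat.pow_le_pow_left hj.le i).trans (Nat.pow_le_pow_right (by omega) hi')

lemma val_le {z : ℤ} (hz : z ≠ 0) {κ : ℕ} (h : z.natAbs < 2 ^ (κ + 1)) :
    ((z : ℤ) : ℤ_[p]).valuation ≤ κ := by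
  by_contra hcon
  push Not at hcon
  have h1 : (p : ℤ_[p]) ^ (κ + 1) ∣ ((z : ℤ) : ℤ_[p]) :=
    Ideal.mem_span_singleton.1
      ((PadicInt.mem_span_pow_iff_le_valuation _ (by exact_mod_cast hz) _).2 hcon)
  rw [PadicInt.pow_p_dvd_int_iff] at h1
  have h2 : p ^ (κ + 1) ≤ z.natAbs := by
    refine Nat.le_of_dvd (Int.natAbs_pos.2 hz) ?_
    have := Int.natAbs_dvd_natAbs.2 h1
    simpa [Int.natAbs_pow] using this
  have h3 : 2 ^ (κ + 1) ≤ p ^ (κ + 1) :=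
    Nat.pow_le_pow_left (Fact.out : p.Prime).two_le _
  omega

lemma norm_int' {z : ℤ} (hz : z ≠ 0) :
    ‖((z : ℤ) : ℚ_[p])‖ = ((p : ℝ)⁻¹) ^ (((z : ℤ) : ℤ_[p]).valuation) := by
  have h0 : ((z : ℤ) : ℤ_[p]) ≠ 0 := by exact_mod_cast hz
  have h1 := PadicInt.norm_eq_zpow_neg_valuation h0
  rw [PadicInt.norm_def] at h1
  have h2 : (((z : ℤ) : ℤ_[p]) : ℚ_[p]) = ((z : ℤ) : ℚ_[p]) := by simp
  rw [h2] at h1
  rw [h1, zpow_neg, inv_pow, zpow_natCast]

theorem long_gap {P Q : ℤ[X]} (hP : SplitAt p P) (hQ : SplitAt p Q)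
    (hd : Q.natDegree < P.natDegree) (c : ℕ) :
    ∃ G₀ : ℕ, ∀ (a : ℕ → ℚ) (n g : ℕ), G₀ ≤ g → n ≤ c * g ^ 2 →
      (∀ j, n ≤ j → j < n + g → P.eval (j : ℤ) ≠ 0 ∧ Q.eval (j : ℤ) ≠ 0 ∧
        ((Q.eval (j : ℤ) : ℤ) : ℚ) * a (j + 1) = ((P.eval (j : ℤ) : ℤ) : ℚ) * a j) →
      a n ≠ 0 → ‖((a (n + g) : ℚ) : ℚ_[p])‖ < ‖((a n : ℚ) : ℚ_[p])‖ := by
  have hp2 := (Fact.out : p.Prime).two_le
  obtain ⟨C, hC⟩ := abs_eval_le Q
  set D := Q.natDegree with hD
  set M := p * (D + 1) with hM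
  have hM0 : 0 < M := by positivity
  obtain ⟨e₀, he₀⟩ := exp_beats (C * ((c + 1) * M ^ 2) ^ D) (2 * D)
  refine ⟨max M (M * e₀), fun a n g hg hn h han => ?_⟩
  have hgM : M ≤ g := (le_max_left _ _).trans hg
  have hge : M * e₀ ≤ g := (le_max_right _ _).trans hg
  set κ := g / M with hκ
  have hκ1 : 1 ≤ κ := (Nat.one_le_div_iff hM0).2 hgM
  have hκe : e₀ ≤ κ + 1 := by
    have : e₀ ≤ κ := (Nat.le_div_iff_mul_le hM0).2 (by linarith)
    omega
  have hgκ : g < M * (κ + 1) := by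
    have := (Nat.div_lt_iff_lt_mul hM0).1 (Nat.lt_succ_self κ)
    rw [mul_comm] at this
    exact this
  have hκD : κ * (D + 1) ≤ g / p := by
    rw [hκ, hM, ← Nat.div_div_eq_div_mul]
    exact Nat.div_mul_le_self _ _
  have hgpos : 1 ≤ g := by omega
  -- valuations
  have hval : ∀ j ∈ Finset.Ico n (n + g), (((Q.eval (j : ℤ) : ℤ) : ℤ_[p])).valuation ≤ κ := by
    intro j hj
    rw [Finset.mem_Ico] at hj
    refine val_le (h j hj.1 hj.2).2.1 ?_
    calc (Q.eval (j : ℤ)).natAbs ≤ C * (n + g) ^ D := hC j (n + g) hj.2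
      _ ≤ C * ((c + 1) * (M * (κ + 1)) ^ 2) ^ D := by
        refine Nat.mul_le_mul_left _ (Nat.pow_le_pow_left ?_ _)
        have e1 : g ≤ g ^ 2 := by nlinarith
        have e2 : g ^ 2 ≤ (M * (κ + 1)) ^ 2 := Nat.pow_le_pow_left hgκ.le 2
        calc n + g ≤ (c + 1) * g ^ 2 := by linarith
          _ ≤ _ := Nat.mul_le_mul_left _ e2
      _ = C * ((c + 1) * M ^ 2) ^ D * (κ + 1) ^ (2 * D) := by
        rw [mul_pow M, ← mul_assoc, mul_pow _ ((κ + 1) ^ 2), ← pow_mul, mul_assoc]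
      _ < 2 ^ (κ + 1) := he₀ _ hκe
  have hv := val_diff hP hQ hd hκ1 (fun j hj => (h j (Finset.mem_Ico.1 hj).1
    (Finset.mem_Ico.1 hj).2).1) (fun j hj => (h j (Finset.mem_Ico.1 hj).1
    (Finset.mem_Ico.1 hj).2).2.1) hval
  rw [← hD] at hv
  set SQ := ∑ j ∈ Finset.Ico n (n + g), (((Q.eval (j : ℤ) : ℤ) : ℤ_[p])).valuation with hSQ
  set SP := ∑ j ∈ Finset.Ico n (n + g), (((P.eval (j : ℤ) : ℤ) : ℤ_[p])).valuation with hSP
  have hlt : SQ < SP := by
    have : D * κ + κ ≤ g / p := by linarith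
    omega
  -- the products
  have hprod : ∀ t, t ≤ g → a (n + t) * ∏ j ∈ Finset.Ico n (n + t), ((Q.eval (j : ℤ) : ℤ) : ℚ) =
      a n * ∏ j ∈ Finset.Ico n (n + t), ((P.eval (j : ℤ) : ℤ) : ℚ) := by
    intro t
    induction t with
    | zero => simp
    | succ t ih =>
      intro ht
      have e1 := ih (by omega)
      have e2 := (h (n + t) (by omega) (by omega)).2.2
      rw [← add_assoc n t 1, Finset.prod_Ico_succ_top (by omega), Finset.prod_Ico_succ_top (by omega)]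
      calc _ = (∏ j ∈ Finset.Ico n (n + t), ((Q.eval (j : ℤ) : ℤ) : ℚ)) *
            (((Q.eval ((n + t : ℕ) : ℤ) : ℤ) : ℚ) * a (n + t + 1)) := by ring
        _ = (a (n + t) * ∏ j ∈ Finset.Ico n (n + t), ((Q.eval (j : ℤ) : ℤ) : ℚ)) *
            ((P.eval ((n + t : ℕ) : ℤ) : ℤ) : ℚ) := by rw [e2]; ring
        _ = _ := by rw [e1]; ring
  have hnorm := congrArg (fun x : ℚ => ‖((x : ℚ) : ℚ_[p])‖) (hprod g le_rfl)
  simp only [Rat.cast_mul, norm_mul, Rat.cast_prod, norm_prod, Rat.cast_intCast] at hnorm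
  rw [Finset.prod_congr rfl fun j hj => norm_int' (p := p) (h j (Finset.mem_Ico.1 hj).1
      (Finset.mem_Ico.1 hj).2).2.1,
    Finset.prod_congr rfl fun j hj => norm_int' (p := p) (h j (Finset.mem_Ico.1 hj).1
      (Finset.mem_Ico.1 hj).2).1,
    Finset.prod_pow_eq_pow_sum, Finset.prod_pow_eq_pow_sum] at hnorm
  have hp1 : (1 : ℝ) < p := by exact_mod_cast (Fact.out : p.Prime).one_lt
  have hq0 : (0 : ℝ) < (p : ℝ)⁻¹ := by positivity
  have hq1 : (p : ℝ)⁻¹ < 1 := inv_lt_one_of_one_lt₀ hp1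
  have hB : 0 < ‖((a n : ℚ) : ℚ_[p])‖ := by
    rw [norm_pos_iff]
    exact_mod_cast han
  by_contra hcon
  push Not at hcon
  have h1 : ‖((a n : ℚ) : ℚ_[p])‖ * ((p : ℝ)⁻¹) ^ SQ ≤ ‖((a n : ℚ) : ℚ_[p])‖ * ((p : ℝ)⁻¹) ^ SP := by
    rw [← hnorm]
    exact mul_le_mul_of_nonneg_right hcon (by positivity)
  have h2 : ((p : ℝ)⁻¹) ^ SP < ((p : ℝ)⁻¹) ^ SQ := pow_lt_pow_right_of_lt_one₀ hq0 hq1 hlt
  have h3 := mul_lt_mul_of_pos_left h2 hB
  linarith

lemma norm_eval_big {P : ℤ[X]} (hP : SplitAt p P) {y : ℚ_[p]} (hy : 1 < ‖y‖) :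
    ‖aeval y P‖ = ‖y‖ ^ P.natDegree := by
  obtain ⟨hP1, A, hA⟩ := hP
  have hAc := (split_val hP1 hA).1
  have h1 : aeval y P = ((P.leadingCoeff : ℤ) : ℚ_[p]) *
      (A.map (fun α : ℤ_[p] => y - (α : ℚ_[p]))).prod := by
    have e1 := congrArg (aeval y) hA
    rw [map_mul, aeval_C, aeval_def, eval₂_map, map_multiset_prod, Multiset.map_map] at e1
    have e2 : (algebraMap ℤ_[p] ℚ_[p]).comp (Int.castRingHom ℤ_[p]) = algebraMap ℤ ℚ_[p] :=
      RingHom.ext_int _ _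
    rw [e2, ← aeval_def, map_intCast] at e1
    rw [e1]
    congr 2
    refine Multiset.map_congr rfl fun x _ => ?_
    simp only [Function.comp_apply, map_sub, aeval_X, aeval_C]
    rfl
  have h2 : ‖((P.leadingCoeff : ℤ) : ℚ_[p])‖ = 1 := by
    have e1 := PadicInt.isUnit_iff.1 (isUnit_lc (p := p) hP1)
    rw [PadicInt.norm_def] at e1
    simpa using e1
  have h3 : ∀ A : Multiset ℤ_[p], ‖(A.map (fun α : ℤ_[p] => y - (α : ℚ_[p]))).prod‖ = ‖y‖ ^ A.card := by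
    intro A
    induction A using Multiset.induction_on with
    | empty => simp
    | cons a A ih =>
      rw [Multiset.map_cons, Multiset.prod_cons, norm_mul, ih, Multiset.card_cons, pow_succ,
        mul_comm]
      congr 1
      have ha : ‖-(a : ℚ_[p])‖ ≤ 1 := by
        rw [norm_neg]
        exact a.2
      rw [sub_eq_add_neg, Padic.add_eq_max_of_ne (by linarith)]
      exact max_eq_left (by linarith)
  rw [h1, norm_mul, h2, one_mul, h3, hAc]

/-- **The contradiction for a window of long gaps.** -/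
theorem no_window {P Q : ℤ[X]} (hP : SplitAt p P) (hQ : SplitAt p Q)
    (hd : Q.natDegree < P.natDegree) (hpD : P.natDegree < p) (x : ℚ)
    (h : ∀ i : ℕ, i ≤ P.natDegree →
      ‖aeval ((x : ℚ_[p]) + i) P‖ < ‖aeval ((x : ℚ_[p]) + i) Q‖) : False := by
  rcases le_or_gt ‖(x : ℚ_[p])‖ 1 with hx | hx
  · set y : ℤ_[p] := ⟨(x : ℚ_[p]), hx⟩ with hy
    have hyx : (y : ℚ_[p]) = (x : ℚ_[p]) := rfl
    have hev : ∀ (R : ℤ[X]) (i : ℕ), aeval ((x : ℚ_[p]) + i) R =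
        ((aeval (y + i) R : ℤ_[p]) : ℚ_[p]) := by
      intro R i
      have e1 := aeval_algebraMap_apply ℚ_[p] (y + (i : ℤ_[p])) R
      have e2 : algebraMap ℤ_[p] ℚ_[p] (y + (i : ℤ_[p])) = (x : ℚ_[p]) + i := by
        rw [map_add, map_natCast]
        rfl
      rw [e2] at e1
      exact e1
    have hzero : ∀ i : ℕ, i ≤ P.natDegree →
        (P.map (Int.castRingHom (ZMod p))).eval (PadicInt.toZMod y + i) = 0 := by
      intro i hi
      have e1 := h i hi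
      rw [hev, hev] at e1
      have e2 : ‖((aeval (y + i) Q : ℤ_[p]) : ℚ_[p])‖ ≤ 1 := (aeval (y + (i : ℤ_[p])) Q).2
      have e3 : ‖(aeval (y + (i : ℤ_[p])) P : ℤ_[p])‖ < 1 := by
        rw [PadicInt.norm_def]
        linarith
      have e4 : PadicInt.toZMod (aeval (y + (i : ℤ_[p])) P : ℤ_[p]) = 0 := by
        have : (aeval (y + (i : ℤ_[p])) P : ℤ_[p]) ∈ RingHom.ker (PadicInt.toZMod (p := p)) := by
          rw [PadicInt.ker_toZMod, PadicInt.maximalIdeal_eq_span_p, Ideal.mem_span_singleton]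
          exact (PadicInt.norm_lt_one_iff_dvd _).1 e3
        exact this
      rw [aeval_def, hom_eval₂] at e4
      rw [eval_map]
      have e5 : (PadicInt.toZMod (p := p)).comp (algebraMap ℤ ℤ_[p]) =
          Int.castRingHom (ZMod p) := RingHom.ext_int _ _
      rw [e5, map_add, map_natCast] at e4
      exact e4
    have hne : P.map (Int.castRingHom (ZMod p)) ≠ 0 := by
      intro hcon
      have e1 := congrArg (fun f => coeff f P.natDegree) hcon
      simp only [coeff_map, coeff_zero, coeff_natDegree] at e1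
      exact hP.1 ((ZMod.intCast_zmod_eq_zero_iff_dvd _ _).1 e1)
    apply hne
    refine eq_zero_of_natDegree_lt_card_of_eval_eq_zero _ (ι := Fin (P.natDegree + 1))
      (f := fun i => PadicInt.toZMod y + ((i : ℕ) : ZMod p)) ?_ (fun i => hzero i (by omega)) ?_
    · intro i j hij
      have e1 : ((i : ℕ) : ZMod p) = ((j : ℕ) : ZMod p) := add_left_cancel hij
      rw [ZMod.natCast_eq_natCast_iff', Nat.mod_eq_of_lt (by omega), Nat.mod_eq_of_lt (by omega)]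
        at e1
      exact Fin.ext e1
    · rw [Fintype.card_fin]
      exact Nat.lt_succ_of_le (natDegree_map_le)
  · have e1 := h 0 (Nat.zero_le _)
    rw [Nat.cast_zero, add_zero, norm_eval_big hP hx, norm_eval_big hQ hx] at e1
    have e2 : ‖(x : ℚ_[p])‖ ^ Q.natDegree ≤ ‖(x : ℚ_[p])‖ ^ P.natDegree :=
      pow_le_pow_right₀ hx.le hd.le
    linarith

end Pool.Agent.H43R
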