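import Mathlib

/-!
# Growth of rational functions
-/

set_option autoImplicit false

namespace Pool.Agent.H43R

open Polynomial Filter Topology

/-- `y (F(y + 1) - F(y)) / F(y)` tends to the degree -/
lemma ratio_lim (F : ℚ[X]) (hF : F ≠ 0) :
    Tendsto (fun y : ℚ => y * (F.eval (y + 1) - F.eval y) / F.eval y) atTop
      (𝓝 (F.natDegree : ℚ)) := by
  rcases Nat.eq_zero_or_pos F.natDegree with h0 | hpos
  · have h1 := eq_C_of_natDegree_eq_zero h0
    rw [h0, h1]
    simp
  · obtain ⟨n, hn⟩ : ∃ n, F.natDegree = n + 1 := ⟨F.natDegree - 1, by omega⟩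
    have hlc : F.coeff (n + 1) ≠ 0 := by
      rw [← hn]
      exact leadingCoeff_ne_zero.2 hF
    have hn0 : ((n : ℚ) + 1) ≠ 0 := by positivity
    set G : ℚ[X] := X * (taylor 1 F - F) with hG
    have hco : ∀ k, n + 1 ≤ k → (taylor 1 F - F).coeff k = 0 := by
      intro k hk
      rw [coeff_sub]
      rcases hk.eq_or_lt with h | h
      · rw [← h, taylor_coeff]
        have h2 : (hasseDeriv (n + 1) F).natDegree < 1 := by
          have := natDegree_hasseDeriv_le F (n + 1)
          omega
        rw [eval_eq_sum_range' h2, Finset.sum_range_one, hasseDeriv_coeff, zero_add,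
          Nat.choose_self]
        simp
      · rw [coeff_eq_zero_of_natDegree_lt (by rw [natDegree_taylor]; omega),
          coeff_eq_zero_of_natDegree_lt (by omega), sub_zero]
    have hcn : (taylor 1 F - F).coeff n = ((n : ℚ) + 1) * F.coeff (n + 1) := by
      rw [coeff_sub, taylor_coeff]
      have h2 : (hasseDeriv n F).natDegree < 2 := by
        have := natDegree_hasseDeriv_le F n
        omega
      rw [eval_eq_sum_range' h2, Finset.sum_range_succ, Finset.sum_range_one, hasseDeriv_coeff,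
        hasseDeriv_coeff, zero_add, Nat.choose_self, add_comm 1 n, Nat.choose_succ_self_right]
      push_cast
      ring
    have hGd : G.natDegree = n + 1 := by
      refine le_antisymm ?_ ?_
      · rw [hG, natDegree_le_iff_coeff_eq_zero]
        intro k hk
        obtain ⟨k', rfl⟩ : ∃ k', k = k' + 1 := ⟨k - 1, by omega⟩
        rw [coeff_X_mul]
        exact hco k' (by omega)
      · refine le_natDegree_of_ne_zero ?_
        rw [hG, coeff_X_mul, hcn]
        exact mul_ne_zero hn0 hlc
    have hG0 : G ≠ 0 := by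
      rintro h
      rw [h, natDegree_zero] at hGd
      omega
    have hdeg : G.degree = F.degree := by
      rw [degree_eq_natDegree hG0, degree_eq_natDegree hF, hGd, hn]
    have hlim := div_tendsto_atTop_leadingCoeff_div_of_degree_eq G F hdeg
    have hval : G.leadingCoeff / F.leadingCoeff = (F.natDegree : ℚ) := by
      rw [leadingCoeff, leadingCoeff, hGd, hn, hG, coeff_X_mul, hcn, mul_div_assoc,
        div_self hlc]
      push_cast
      ring
    rw [hval] at hlim
    refine hlim.congr fun y => ?_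
    rw [hG, eval_mul, eval_X, eval_sub, taylor_eval]

/-- the absolute value of the quotient -/
def rr (P Q : ℚ[X]) (y : ℚ) : ℚ := |P.eval y| / |Q.eval y|

lemma eventually_ne' {F : ℚ[X]} (hF : F ≠ 0) : ∀ᶠ y : ℚ in atTop, F.eval y ≠ 0 := by
  have h1 : {y : ℚ | F.eval y = 0}.Finite := by
    refine (F.roots.toFinset.finite_toSet).subset fun y hy => ?_
    rw [Finset.mem_coe, Multiset.mem_toFinset, mem_roots hF]
    exact hy
  obtain ⟨M, hM⟩ := h1.bddAbove
  filter_upwards [eventually_gt_atTop M] with y hy hcon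
  exact absurd (hM hcon) (not_le.2 hy)

/-- steps of the quotient -/
lemma step_bounds {P Q : ℚ[X]} (hP : P ≠ 0) (hQ : Q ≠ 0) (hd : Q.natDegree < P.natDegree) :
    ∃ c₄ : ℚ, 0 < c₄ ∧ ∀ᶠ y : ℚ in atTop, (1 + (1 / 4) / y) * rr P Q y ≤ rr P Q (y + 1) ∧
      rr P Q (y + 1) ≤ (1 + c₄ / y) * rr P Q y := by
  refine ⟨P.natDegree + 2, by positivity, ?_⟩
  have hA := ratio_lim P hP
  have hB := ratio_lim Q hQ
  have hA1 := hA.eventually_const_lt (show (P.natDegree : ℚ) - 1 / 4 < P.natDegree by linarith)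
  have hA2 := hA.eventually_lt_const (show (P.natDegree : ℚ) < P.natDegree + 1 / 4 by linarith)
  have hB1 := hB.eventually_const_lt (show (Q.natDegree : ℚ) - 1 / 4 < Q.natDegree by linarith)
  have hB2 := hB.eventually_lt_const (show (Q.natDegree : ℚ) < Q.natDegree + 1 / 4 by linarith)
  have hdQ : (Q.natDegree : ℚ) + 1 ≤ P.natDegree := by exact_mod_cast hd
  have hQ0 : (0 : ℚ) ≤ Q.natDegree := Nat.cast_nonneg _
  filter_upwards [hA1, hA2, hB1, hB2, eventually_ne' hP, eventually_ne' hQ,
    eventually_ge_atTop ((P.natDegree : ℚ) + 2)] with y h1 h2 h3 h4 h5 h6 h7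
  set A := y * (P.eval (y + 1) - P.eval y) / P.eval y with hAdef
  set B := y * (Q.eval (y + 1) - Q.eval y) / Q.eval y with hBdef
  have hy : 0 < y := by linarith
  have e1 : P.eval (y + 1) = (1 + A / y) * P.eval y := by
    rw [hAdef]
    field_simp
    ring
  have e2 : Q.eval (y + 1) = (1 + B / y) * Q.eval y := by
    rw [hBdef]
    field_simp
    ring
  have hB0 : 0 < 1 + B / y := by
    have : -1 < B / y := by
      rw [lt_div_iff₀ hy]
      linarith
    linarith
  have hA0 : 0 < 1 + A / y := by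
    have : -1 < A / y := by
      rw [lt_div_iff₀ hy]
      linarith
    linarith
  have e3 : rr P Q (y + 1) = (1 + A / y) / (1 + B / y) * rr P Q y := by
    unfold rr
    rw [e1, e2, abs_mul, abs_mul, abs_of_pos hA0, abs_of_pos hB0]
    rw [mul_div_mul_comm]
  have hr0 : 0 ≤ rr P Q y := div_nonneg (abs_nonneg _) (abs_nonneg _)
  rw [e3]
  constructor
  · refine mul_le_mul_of_nonneg_right ?_ hr0
    rw [le_div_iff₀ hB0]
    have e4 : (1 + (1 / 4) / y) * (1 + B / y) = 1 + ((1 / 4) + B + (1 / 4) * (B / y)) / y := by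
      field_simp
      ring
    have e5 : B / y ≤ 1 := by
      rw [div_le_one hy]
      linarith
    rw [e4]
    have e6 : ((1 / 4) + B + (1 / 4) * (B / y)) / y ≤ A / y := by
      refine div_le_div_of_nonneg_right ?_ hy.le
      linarith
    linarith
  · refine mul_le_mul_of_nonneg_right ?_ hr0
    rw [div_le_iff₀ hB0]
    have e4 : (1 + ((P.natDegree : ℚ) + 2) / y) * (1 + B / y) =
        1 + (((P.natDegree : ℚ) + 2) + B + ((P.natDegree : ℚ) + 2) / y * B) / y := by
      field_simp
      ring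
    have e5 : ((P.natDegree : ℚ) + 2) / y ≤ 1 := by
      rw [div_le_one hy]
      linarith
    have e5' : 0 ≤ ((P.natDegree : ℚ) + 2) / y := by positivity
    rw [e4]
    have e6 : A / y ≤ (((P.natDegree : ℚ) + 2) + B + ((P.natDegree : ℚ) + 2) / y * B) / y := by
      refine div_le_div_of_nonneg_right ?_ hy.le
      nlinarith
    linarith

/-- the size of the quotient -/
lemma size_bounds {P Q : ℚ[X]} (hP : P ≠ 0) (hQ : Q ≠ 0) (hd : Q.natDegree ≤ P.natDegree) :
    ∃ c₁ c₂ : ℚ, 0 < c₁ ∧ 0 < c₂ ∧ ∀ᶠ y : ℚ in atTop,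
      c₁ * y ^ (P.natDegree - Q.natDegree) ≤ rr P Q y ∧
      rr P Q y ≤ c₂ * y ^ (P.natDegree - Q.natDegree) := by
  set d := P.natDegree - Q.natDegree with hdd
  have hXQ : X ^ d * Q ≠ 0 := mul_ne_zero (pow_ne_zero _ X_ne_zero) hQ
  have hdeg : P.degree = (X ^ d * Q).degree := by
    rw [degree_eq_natDegree hP, degree_eq_natDegree hXQ, natDegree_X_pow_mul _ hQ]
    congr 1
    omega
  have hlim := div_tendsto_atTop_leadingCoeff_div_of_degree_eq P (X ^ d * Q) hdeg
  set c := P.leadingCoeff / (X ^ d * Q).leadingCoeff with hc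
  have hc0 : 0 < |c| :=
    abs_pos.2 (div_ne_zero (leadingCoeff_ne_zero.2 hP) (leadingCoeff_ne_zero.2 hXQ))
  have hl := hlim.abs
  have h1 := hl.eventually_const_lt (show |c| / 2 < |c| by linarith)
  have h2 := hl.eventually_lt_const (show |c| < 2 * |c| by linarith)
  refine ⟨|c| / 2, 2 * |c|, by positivity, by positivity, ?_⟩
  filter_upwards [h1, h2, eventually_gt_atTop 0, eventually_ne' hQ] with y h3 h4 h5 h6
  have hy : 0 < y ^ d := by positivity
  have hQy : 0 < |Q.eval y| := abs_pos.2 h6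
  have e1 : |P.eval y / (X ^ d * Q).eval y| = rr P Q y / y ^ d := by
    unfold rr
    rw [eval_mul, eval_pow, eval_X, abs_div, abs_mul, abs_of_pos hy]
    field_simp
  rw [e1, lt_div_iff₀ hy] at h3
  rw [e1, div_lt_iff₀ hy] at h4
  exact ⟨h3.le, h4.le⟩

end Pool.Agent.H43R
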