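import Mathlib

/-!
# Two consecutive gaps
-/

set_option autoImplicit false

namespace Pool.Agent.H43R

/-- the growth conditions -/
structure Reg (R : ℚ → ℚ) (d : ℕ) (c₁ c₂ c₄ Y : ℚ) : Prop where
  d1 : 1 ≤ d
  p1 : 0 < c₁
  p2 : 0 < c₂
  p4 : 0 < c₄
  Y1 : 1 ≤ Y
  lo : ∀ y, Y ≤ y → c₁ * y ^ d ≤ R y
  up : ∀ y, Y ≤ y → R y ≤ c₂ * y ^ d
  st : ∀ y, Y ≤ y → (1 + (1 / 4) / y) * R y ≤ R (y + 1)
  st' : ∀ y, Y ≤ y → R (y + 1) ≤ (1 + c₄ / y) * R y
  big : ∀ y, Y ≤ y → 4 ≤ R y

theorem two_gaps {R : ℚ → ℚ} {d : ℕ} {c₁ c₂ c₄ Y : ℚ} (H : Reg R d c₁ c₂ c₄ Y) :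
    ∃ N₁ c : ℕ, ∀ (b : ℕ → ℚ) (x : ℚ) (n g h : ℕ), N₁ ≤ n → (N₁ : ℚ) ≤ x →
      (∀ j, n ≤ j → 0 < b j ∧ b (j + 1) = R j * b j) → 1 ≤ g → b (n + g) = R x * b n →
      b (n + g + h) = R (x + 1) * b (n + g) → h ≤ g ∧ ((g = 1 ∧ h = 1) ∨ n < c * g ^ 2) := by
  obtain ⟨d1, p1, p2, p4, Y1, lo, up, st, st', big⟩ := H
  obtain ⟨N₂, hN₂⟩ := exists_nat_ge (max (max Y c₄) (c₂ * (4 * c₄) ^ d / c₁ ^ 2 + 1))
  obtain ⟨c, hc⟩ := exists_nat_ge (2 * c₄)
  have hNY : Y ≤ N₂ := ((le_max_left _ _).trans (le_max_left _ _)).trans hN₂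
  have hN4 : c₄ ≤ N₂ := ((le_max_right _ _).trans (le_max_left _ _)).trans hN₂
  have hNc : c₂ * (4 * c₄) ^ d / c₁ ^ 2 + 1 ≤ N₂ := (le_max_right _ _).trans hN₂
  refine ⟨N₂, c, fun b x n g h hn hx hb hg h1 h2 => ?_⟩
  have hnQ : (N₂ : ℚ) ≤ n := by exact_mod_cast hn
  have hn1 : (1 : ℚ) ≤ n := by linarith
  have hn0 : (0 : ℚ) < n := by linarith
  have hx0 : (0 : ℚ) < x := by linarith
  have hjY : ∀ j : ℕ, n ≤ j → Y ≤ (j : ℚ) := by
    intro j hj
    have : (n : ℚ) ≤ j := by exact_mod_cast hj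
    linarith
  have hpos : ∀ j, n ≤ j → 0 < b j := fun j hj => (hb j hj).1
  have hRpos : ∀ y, Y ≤ y → 0 < R y := fun y hy => by linarith [big y hy]
  -- the sequence increases
  have hstep : ∀ j, n ≤ j → 4 * b j ≤ b (j + 1) := by
    intro j hj
    rw [(hb j hj).2]
    exact mul_le_mul_of_nonneg_right (big _ (hjY j hj)) (hpos j hj).le
  have hmono : ∀ j, n ≤ j → ∀ k, b j ≤ b (j + k) := by
    intro j hj k
    induction k with
    | zero => exact le_rfl
    | succ k ih =>
      have := hstep (j + k) (by omega)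
      have h3 := hpos (j + k) (by omega)
      rw [← add_assoc]
      linarith
  have hR1 : ∀ y, Y ≤ y → R y ≤ R (y + 1) := by
    intro y hy
    have e1 := st y hy
    have e2 := hRpos y hy
    have e3 : 0 < (1 / 4) / y := by
      have : 0 < y := by linarith
      positivity
    nlinarith
  have hRk : ∀ j : ℕ, n ≤ j → ∀ k : ℕ, R (j : ℚ) ≤ R ((j + k : ℕ) : ℚ) := by
    intro j hj k
    induction k with
    | zero => exact le_rfl
    | succ k ih =>
      have := hR1 ((j + k : ℕ) : ℚ) (hjY _ (by omega))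
      have e : ((j + k : ℕ) : ℚ) + 1 = ((j + (k + 1) : ℕ) : ℚ) := by push_cast; ring
      rw [e] at this
      exact ih.trans this
  -- comparison of the quotients
  have hcmp : ∀ k t : ℕ, b (n + t) * b (n + k) ≤ b (n + k + t) * b n := by
    intro k t
    induction t with
    | zero => rw [add_zero, add_zero, mul_comm]
    | succ t ih =>
      have e1 := (hb (n + t) (by omega)).2
      have e2 := (hb (n + k + t) (by omega)).2
      rw [← add_assoc, ← add_assoc, e1, e2]
      have e3 : R ((n + t : ℕ) : ℚ) ≤ R ((n + k + t : ℕ) : ℚ) := by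
        have := hRk (n + t) (by omega) k
        have e : n + t + k = n + k + t := by omega
        rwa [e] at this
      have e4 := hRpos _ (hjY (n + t) (by omega))
      have e5 := hpos (n + k + t) (by omega)
      have e6 := hpos n le_rfl
      calc R ((n + t : ℕ) : ℚ) * b (n + t) * b (n + k) =
            R ((n + t : ℕ) : ℚ) * (b (n + t) * b (n + k)) := by ring
        _ ≤ R ((n + t : ℕ) : ℚ) * (b (n + k + t) * b n) := mul_le_mul_of_nonneg_left ih e4.le
        _ ≤ R ((n + k + t : ℕ) : ℚ) * (b (n + k + t) * b n) :=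
            mul_le_mul_of_nonneg_right e3 (by positivity)
        _ = _ := by ring
  have hx1 := st' x (by linarith)
  have hxR := hRpos x (by linarith)
  have hc4x : c₄ / x ≤ 1 := by
    rw [div_le_one hx0]
    linarith
  have hbn := hpos n le_rfl
  have hbg := hpos (n + g) (by omega)
  -- the second gap is at most the first
  have hgh : h ≤ g := by
    by_contra hcon
    push Not at hcon
    obtain ⟨s, hs⟩ : ∃ s, h = g + 1 + s := ⟨h - g - 1, by omega⟩
    have e1 : b (n + g + g + 1) ≤ b (n + g + h) := by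
      have := hmono (n + g + g + 1) (by omega) s
      have e : n + g + g + 1 + s = n + g + h := by omega
      rwa [e] at this
    have e2 := hstep (n + g + g) (by omega)
    have e3 := hcmp g g
    have e4 : 4 * (b (n + g) * b (n + g)) ≤ R (x + 1) * b (n + g) * b n := by
      rw [← h2]
      calc 4 * (b (n + g) * b (n + g)) ≤ 4 * (b (n + g + g) * b n) := by linarith
        _ = (4 * b (n + g + g)) * b n := by ring
        _ ≤ b (n + g + h) * b n := mul_le_mul_of_nonneg_right (e2.trans e1) hbn.le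
    have e5 : 4 * b (n + g) ≤ R (x + 1) * b n := by
      refine le_of_mul_le_mul_right ?_ hbg
      linarith
    rw [h1] at e5
    have e6 : 4 * R x ≤ R (x + 1) := by
      refine le_of_mul_le_mul_right ?_ hbn
      linarith
    nlinarith
  refine ⟨hgh, ?_⟩
  rcases hgh.eq_or_lt with heq | hlt
  · -- equal gaps
    left
    subst heq
    by_contra hcon
    have hg2 : 2 ≤ h := by omega
    have hcmp' : ∀ t : ℕ, (1 + (1 / 4) / n) * (b (n + (t + 1)) * b (n + h)) ≤
        b (n + h + (t + 1)) * b n := by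
      intro t
      induction t with
      | zero =>
        rw [zero_add, (hb n le_rfl).2, (hb (n + h) (by omega)).2]
        have e1 := st n (hjY n le_rfl)
        have e2 : R ((n : ℚ) + 1) ≤ R ((n + h : ℕ) : ℚ) := by
          have := hRk (n + 1) (by omega) (h - 1)
          have e : n + 1 + (h - 1) = n + h := by omega
          rw [e] at this
          push_cast at this ⊢
          exact this
        calc _ = ((1 + (1 / 4) / n) * R n) * (b n * b (n + h)) := by ring
          _ ≤ R ((n + h : ℕ) : ℚ) * (b n * b (n + h)) :=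
              mul_le_mul_of_nonneg_right (e1.trans e2) (by positivity)
          _ = _ := by ring
      | succ t ih =>
        have e1 := (hb (n + (t + 1)) (by omega)).2
        have e2 := (hb (n + h + (t + 1)) (by omega)).2
        rw [← add_assoc n (t + 1) 1, ← add_assoc (n + h) (t + 1) 1, e1, e2]
        have e3 : R ((n + (t + 1) : ℕ) : ℚ) ≤ R ((n + h + (t + 1) : ℕ) : ℚ) := by
          have := hRk (n + (t + 1)) (by omega) h
          have e : n + (t + 1) + h = n + h + (t + 1) := by omega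
          rwa [e] at this
        have e4 := hRpos _ (hjY (n + (t + 1)) (by omega))
        have e5 := hpos (n + h + (t + 1)) (by omega)
        calc _ = R ((n + (t + 1) : ℕ) : ℚ) *
              ((1 + (1 / 4) / n) * (b (n + (t + 1)) * b (n + h))) := by ring
          _ ≤ R ((n + (t + 1) : ℕ) : ℚ) * (b (n + h + (t + 1)) * b n) :=
              mul_le_mul_of_nonneg_left ih e4.le
          _ ≤ R ((n + h + (t + 1) : ℕ) : ℚ) * (b (n + h + (t + 1)) * b n) :=
              mul_le_mul_of_nonneg_right e3 (by positivity)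
          _ = _ := by ring
    have e1 := hcmp' (h - 1)
    have e : h - 1 + 1 = h := by omega
    rw [e, h2, h1] at e1
    have e2 : (1 + (1 / 4) / n) * R x ≤ R (x + 1) := by
      refine le_of_mul_le_mul_right ?_ (show 0 < R x * b n * b n by positivity)
      linarith
    have e3 : (1 + (1 / 4) / n) ≤ 1 + c₄ / x := le_of_mul_le_mul_right (e2.trans hx1) hxR
    have e4 : x ≤ 4 * c₄ * n := by
      have e5 : (1 / 4) / (n : ℚ) ≤ c₄ / x := by linarith
      rw [div_le_div_iff₀ hn0 hx0] at e5
      linarith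
    have e5 : R n ^ 2 ≤ R x := by
      have e6 : b (n + 2) ≤ b (n + h) := by
        have := hmono (n + 2) (by omega) (h - 2)
        have e : n + 2 + (h - 2) = n + h := by omega
        rwa [e] at this
      have e7 : b (n + 2) = R ((n + 1 : ℕ) : ℚ) * (R n * b n) := by
        rw [show n + 2 = (n + 1) + 1 from rfl, (hb (n + 1) (by omega)).2, (hb n le_rfl).2]
      have e8 := hRk n le_rfl 1
      have e9 := hRpos n (hjY n le_rfl)
      rw [h1, e7] at e6
      refine le_of_mul_le_mul_right ?_ hbn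
      calc R n ^ 2 * b n = R n * (R n * b n) := by ring
        _ ≤ R ((n + 1 : ℕ) : ℚ) * (R n * b n) :=
            mul_le_mul_of_nonneg_right e8 (by positivity)
        _ ≤ _ := e6
    have e6 : (c₁ * (n : ℚ) ^ d) ^ 2 ≤ c₂ * (4 * c₄ * n) ^ d := by
      calc (c₁ * (n : ℚ) ^ d) ^ 2 ≤ R n ^ 2 :=
            pow_le_pow_left₀ (by positivity) (lo n (hjY n le_rfl)) 2
        _ ≤ R x := e5
        _ ≤ c₂ * x ^ d := up x (by linarith)
        _ ≤ _ := mul_le_mul_of_nonneg_left (pow_le_pow_left₀ hx0.le e4 d) p2.le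
    have e7 : c₁ ^ 2 * (n : ℚ) ^ d ≤ c₂ * (4 * c₄) ^ d := by
      refine le_of_mul_le_mul_right ?_ (show 0 < (n : ℚ) ^ d by positivity)
      calc c₁ ^ 2 * (n : ℚ) ^ d * (n : ℚ) ^ d = (c₁ * (n : ℚ) ^ d) ^ 2 := by ring
        _ ≤ c₂ * (4 * c₄ * n) ^ d := e6
        _ = _ := by rw [mul_pow (4 * c₄)]; ring
    have e8 : (n : ℚ) ≤ (n : ℚ) ^ d := le_self_pow₀ hn1 (by omega)
    have e9 : c₂ * (4 * c₄) ^ d / c₁ ^ 2 < n := by linarith
    rw [div_lt_iff₀ (by positivity)] at e9
    nlinarith [sq_pos_of_pos p1]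
  · right
    by_contra hcon
    push Not at hcon
    have hcQ : (c : ℚ) * (g : ℚ) ^ 2 ≤ n := by exact_mod_cast hcon
    have hg0 : (0 : ℚ) < g := by exact_mod_cast hg
    set τ := c₄ / (n : ℚ) with hτ
    have hτ0 : 0 < τ := by positivity
    have hRup : ∀ k : ℕ, ∀ j : ℕ, n ≤ j → R ((j + k : ℕ) : ℚ) ≤ (1 + τ) ^ k * R (j : ℚ) := by
      intro k
      induction k with
      | zero =>
        intro j _
        rw [add_zero, pow_zero, one_mul]
      | succ k ih =>
        intro j hj
        have e1 := st' ((j + k : ℕ) : ℚ) (hjY _ (by omega))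
        have e : ((j + k : ℕ) : ℚ) + 1 = ((j + (k + 1) : ℕ) : ℚ) := by push_cast; ring
        rw [e] at e1
        have e2 : c₄ / ((j + k : ℕ) : ℚ) ≤ τ := by
          rw [hτ]
          refine div_le_div_of_nonneg_left p4.le hn0 ?_
          exact_mod_cast (show n ≤ j + k by omega)
        have e3 := hRpos ((j + k : ℕ) : ℚ) (hjY _ (by omega))
        calc R ((j + (k + 1) : ℕ) : ℚ) ≤ (1 + c₄ / ((j + k : ℕ) : ℚ)) * R ((j + k : ℕ) : ℚ) := e1
          _ ≤ (1 + τ) * R ((j + k : ℕ) : ℚ) := mul_le_mul_of_nonneg_right (by linarith) e3.le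
          _ ≤ (1 + τ) * ((1 + τ) ^ k * R (j : ℚ)) :=
              mul_le_mul_of_nonneg_left (ih j hj) (by positivity)
          _ = _ := by ring
    have hcmp2 : ∀ t : ℕ, b (n + g + t) * b n ≤ ((1 + τ) ^ g) ^ t * (b (n + t) * b (n + g)) := by
      intro t
      induction t with
      | zero => rw [add_zero, add_zero, pow_zero, one_mul, mul_comm]
      | succ t ih =>
        have e1 := (hb (n + t) (by omega)).2
        have e2 := (hb (n + g + t) (by omega)).2
        rw [← add_assoc, ← add_assoc, e1, e2]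
        have e3 : R ((n + g + t : ℕ) : ℚ) ≤ (1 + τ) ^ g * R ((n + t : ℕ) : ℚ) := by
          have := hRup g (n + t) (by omega)
          have e : n + t + g = n + g + t := by omega
          rwa [e] at this
        have e4 := hRpos _ (hjY (n + t) (by omega))
        have e5 := hpos (n + g + t) (by omega)
        calc _ = R ((n + g + t : ℕ) : ℚ) * (b (n + g + t) * b n) := by ring
          _ ≤ ((1 + τ) ^ g * R ((n + t : ℕ) : ℚ)) * (b (n + g + t) * b n) :=
              mul_le_mul_of_nonneg_right e3 (by positivity)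
          _ ≤ ((1 + τ) ^ g * R ((n + t : ℕ) : ℚ)) *
              (((1 + τ) ^ g) ^ t * (b (n + t) * b (n + g))) :=
              mul_le_mul_of_nonneg_left ih (by positivity)
          _ = _ := by rw [pow_succ ((1 + τ) ^ g) t]; ring
    have hfac : ((1 + τ) ^ g) ^ h ≤ 2 := by
      rw [← pow_mul]
      set k := g * h with hk
      have hkg : (k : ℚ) * τ ≤ 1 / 2 := by
        have e1 : (k : ℚ) ≤ (g : ℚ) ^ 2 := by
          have : k ≤ g ^ 2 := by rw [hk, sq]; exact Nat.mul_le_mul_left _ hlt.le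
          exact_mod_cast this
        have e2 : (g : ℚ) ^ 2 * (2 * c₄) ≤ n := by
          calc (g : ℚ) ^ 2 * (2 * c₄) ≤ (g : ℚ) ^ 2 * c :=
                mul_le_mul_of_nonneg_left hc (by positivity)
            _ ≤ n := by linarith
        have e3 : (k : ℚ) * τ = (k : ℚ) * c₄ / n := by rw [hτ]; ring
        rw [e3, div_le_iff₀ hn0]
        have e4 : (k : ℚ) * c₄ ≤ (g : ℚ) ^ 2 * c₄ := mul_le_mul_of_nonneg_right e1 p4.le
        linarith
      rcases Nat.eq_zero_or_pos k with hk0 | hk0
      · rw [hk0, pow_zero]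
        norm_num
      have hk1 : (1 : ℚ) ≤ k := by exact_mod_cast hk0
      have hτ1 : τ ≤ 1 / 2 := by nlinarith
      have e1 : 1 / 2 ≤ (1 - τ) ^ k := by
        have := one_add_mul_le_pow (show (-2 : ℚ) ≤ -τ by linarith) k
        have e2 : (1 : ℚ) + (k : ℚ) * (-τ) = 1 - (k : ℚ) * τ := by ring
        have e3 : (1 : ℚ) + -τ = 1 - τ := by ring
        rw [e2, e3] at this
        linarith
      have e2 : (1 + τ) ^ k * (1 - τ) ^ k ≤ 1 := by
        rw [← mul_pow]
        refine pow_le_one₀ ?_ ?_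
        · have : (1 + τ) * (1 - τ) = 1 - τ ^ 2 := by ring
          rw [this]
          nlinarith
        · nlinarith
      have e3 : 0 < (1 + τ) ^ k := by positivity
      nlinarith
    have e1 := hcmp2 h
    have e2 : R x ≤ R (x + 1) := hR1 x (by linarith)
    have e3 : b (n + g) * b (n + g) ≤ b (n + g + h) * b n := by
      rw [h2]
      calc b (n + g) * b (n + g) = R x * (b n * b (n + g)) := by rw [h1]; ring
        _ ≤ R (x + 1) * (b n * b (n + g)) := mul_le_mul_of_nonneg_right e2 (by positivity)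
        _ = _ := by ring
    have hbh := hpos (n + h) (by omega)
    have e4 : b (n + g) * b (n + g) ≤ 2 * (b (n + h) * b (n + g)) := by
      refine (e3.trans e1).trans ?_
      exact mul_le_mul_of_nonneg_right hfac (by positivity)
    have e5 : b (n + g) ≤ 2 * b (n + h) := by
      refine le_of_mul_le_mul_right ?_ hbg
      linarith
    have e6 : 4 * b (n + h) ≤ b (n + g) := by
      have e7 := hstep (n + h) (by omega)
      have e8 := hmono (n + h + 1) (by omega) (g - h - 1)
      have e : n + h + 1 + (g - h - 1) = n + g := by omega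
      rw [e] at e8
      linarith
    linarith

end Pool.Agent.H43R
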