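import Pool.Agent.H43R.Hyp.HC
import Pool.Agent.H43R.Hyp.HD
import Pool.Agent.H43R.Hyp.HE

/-!
# Windows of hypergeometric sequences
-/

set_option autoImplicit false
set_option maxHeartbeats 1000000

namespace Pool.Agent.H43R

open Polynomial Filter

/-- a polynomial over the rational numbers -/
noncomputable def qp (P : ℤ[X]) : ℚ[X] := P.map (Int.castRingHom ℚ)

lemma qp_ne {P : ℤ[X]} (hP : P ≠ 0) : qp P ≠ 0 :=
  (Polynomial.map_ne_zero_iff (Int.castRingHom ℚ).injective_int).2 hP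

lemma qp_deg (P : ℤ[X]) : (qp P).natDegree = P.natDegree :=
  natDegree_map_eq_of_injective (Int.castRingHom ℚ).injective_int P

lemma qp_nat (P : ℤ[X]) (j : ℕ) : (qp P).eval (j : ℚ) = ((P.eval (j : ℤ) : ℤ) : ℚ) := by
  unfold qp
  rw [eval_map]
  have := eval₂_at_intCast (Int.castRingHom ℚ) (p := P) (n := (j : ℤ))
  simp at this ⊢

lemma qp_padic {p : ℕ} [Fact p.Prime] (P : ℤ[X]) (x : ℚ) (i : ℕ) :
    (((qp P).eval (x + i) : ℚ) : ℚ_[p]) = aeval ((x : ℚ_[p]) + i) P := by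
  unfold qp
  rw [eval_map]
  have h1 : ((eval₂ (Int.castRingHom ℚ) (x + i) P : ℚ) : ℚ_[p]) =
      Rat.castHom ℚ_[p] (eval₂ (Int.castRingHom ℚ) (x + i) P) := rfl
  have h2 : (Rat.castHom ℚ_[p]).comp (Int.castRingHom ℚ) = algebraMap ℤ ℚ_[p] :=
    RingHom.ext_int _ _
  rw [h1, hom_eval₂, h2, aeval_def, map_add, map_natCast]
  rfl

lemma exists_reg {P Q : ℤ[X]} (hP : P ≠ 0) (hQ : Q ≠ 0) (hd : Q.natDegree < P.natDegree) :
    ∃ c₁ c₂ c₄ Y : ℚ, Reg (rr (qp P) (qp Q)) (P.natDegree - Q.natDegree) c₁ c₂ c₄ Y ∧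
      ∀ y, Y ≤ y → (qp P).eval y ≠ 0 ∧ (qp Q).eval y ≠ 0 := by
  have hd' : (qp Q).natDegree < (qp P).natDegree := by rw [qp_deg, qp_deg]; exact hd
  obtain ⟨c₁, c₂, p1, p2, h1⟩ := size_bounds (qp_ne hP) (qp_ne hQ) hd'.le
  obtain ⟨c₄, p4, h2⟩ := step_bounds (qp_ne hP) (qp_ne hQ) hd'
  rw [qp_deg, qp_deg] at h1
  obtain ⟨Y, hY⟩ := eventually_atTop.1 (((h1.and h2).and ((eventually_ne' (qp_ne hP)).and
    (eventually_ne' (qp_ne hQ)))).and (eventually_ge_atTop (4 / c₁)))
  have hone : 1 ≤ P.natDegree - Q.natDegree := by omega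
  refine ⟨c₁, c₂, c₄, max Y 1, ⟨hone, p1, p2, p4, le_max_right _ _, fun y hy => ?_, fun y hy => ?_,
    fun y hy => ?_, fun y hy => ?_, fun y hy => ?_⟩, fun y hy => ?_⟩
  · exact (hY y ((le_max_left _ _).trans hy)).1.1.1.1
  · exact (hY y ((le_max_left _ _).trans hy)).1.1.1.2
  · exact (hY y ((le_max_left _ _).trans hy)).1.1.2.1
  · exact (hY y ((le_max_left _ _).trans hy)).1.1.2.2
  · have e1 := (hY y ((le_max_left _ _).trans hy)).1.1.1.1
    have e2 := (hY y ((le_max_left _ _).trans hy)).2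
    have e3 : (1 : ℚ) ≤ y := (le_max_right _ _).trans hy
    have e4 : y ≤ y ^ (P.natDegree - Q.natDegree) := le_self_pow₀ e3 (by omega)
    have e5 : 4 / c₁ ≤ y := e2
    rw [div_le_iff₀ p1] at e5
    have e6 := mul_le_mul_of_nonneg_left e4 p1.le
    linarith
  · exact (hY y ((le_max_left _ _).trans hy)).1.2

lemma shift_zero {P Q : ℤ[X]} (hP : P ≠ 0) (hQ : Q ≠ 0) (hd : Q.natDegree < P.natDegree)
    {δ : ℚ} (h : taylor δ (qp P) * qp Q = taylor δ (qp Q) * qp P) : δ = 0 := by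
  obtain ⟨c₁, c₂, c₄, Y, H, hne⟩ := exists_reg hP hQ hd
  by_contra hδ
  set e := |δ| with he
  have he0 : 0 < e := abs_pos.2 hδ
  have hY1 := H.Y1
  have hev : ∀ y : ℚ, (qp P).eval (y + δ) * (qp Q).eval y = (qp Q).eval (y + δ) * (qp P).eval y := by
    intro y
    have := congrArg (eval y) h
    rw [eval_mul, eval_mul, taylor_eval, taylor_eval] at this
    exact this
  have key : ∀ y, Y ≤ y → (qp P).eval (y + e) * (qp Q).eval y =
      (qp Q).eval (y + e) * (qp P).eval y := by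
    intro y _
    rcases lt_or_gt_of_ne hδ with hneg | hpos
    · have e1 := hev (y + e)
      have e2 : y + e + δ = y := by rw [he, abs_of_neg hneg]; ring
      rw [e2] at e1
      rw [mul_comm, ← e1, mul_comm]
    · rw [he, abs_of_pos hpos]
      exact hev y
  have hper : ∀ y, Y ≤ y → rr (qp P) (qp Q) (y + e) = rr (qp P) (qp Q) y := by
    intro y hy
    have e1 := key y hy
    have e2 := abs_pos.2 (hne y hy).2
    have e3 := abs_pos.2 (hne (y + e) (by linarith)).2
    unfold rr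
    rw [div_eq_div_iff e3.ne' e2.ne', ← abs_mul, ← abs_mul, e1, mul_comm]
  have hk : ∀ k : ℕ, rr (qp P) (qp Q) (Y + k * e) = rr (qp P) (qp Q) Y := by
    intro k
    induction k with
    | zero => simp
    | succ k ih =>
      have e1 := hper (Y + k * e) (by
        have : (0 : ℚ) ≤ k * e := by positivity
        linarith)
      have e2 : Y + ((k + 1 : ℕ) : ℚ) * e = Y + k * e + e := by push_cast; ring
      rw [e2, e1, ih]
  obtain ⟨k, hk'⟩ := exists_nat_gt (rr (qp P) (qp Q) Y / (c₁ * e))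
  have hc := H.p1
  have e1 := H.lo (Y + k * e) (by
    have : (0 : ℚ) ≤ k * e := by positivity
    linarith)
  rw [hk] at e1
  have e3 : (1 : ℚ) ≤ Y + k * e := by
    have : (0 : ℚ) ≤ k * e := by positivity
    linarith
  have e4 : Y + k * e ≤ (Y + k * e) ^ (P.natDegree - Q.natDegree) :=
    le_self_pow₀ e3 (by have := H.d1; omega)
  have e5 := mul_le_mul_of_nonneg_left e4 hc.le
  rw [div_lt_iff₀ (by positivity)] at hk'
  nlinarith

theorem hyp_window {P Q : ℤ[X]} (hP : P ≠ 0) (hQ : Q ≠ 0) (hd : Q.natDegree < P.natDegree) :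
    ∃ K N₁ : ℕ, ∀ (a : ℕ → ℚ) (x : ℚ) (ν : ℕ → ℕ), (N₁ : ℚ) ≤ x → N₁ ≤ ν 0 →
      (∀ j, ν 0 ≤ j → a j ≠ 0 ∧
        (qp Q).eval (j : ℚ) * a (j + 1) = (qp P).eval (j : ℚ) * a j) →
      (∀ i, i < K → ν i < ν (i + 1)) →
      (∀ i : ℕ, i < K → (qp Q).eval (x + i) * a (ν (i + 1)) = (qp P).eval (x + i) * a (ν i)) →
      ∃ i, i ≤ K ∧ x + i = ν i := by
  obtain ⟨c₁, c₂, c₄, Y, H, hne⟩ := exists_reg hP hQ hd
  obtain ⟨N₂, c, h2⟩ := two_gaps H
  obtain ⟨p, hpf, hpE, hPs, hQs⟩ := exists_split P Q hP hQ P.natDegree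
  obtain ⟨G₀, hG⟩ := long_gap hPs hQs hd c
  obtain ⟨N₃, hN₃⟩ := exists_nat_ge Y
  set E := P.natDegree with hE
  set F := Q.natDegree with hF
  set K := 2 * E + F + 2 with hK
  refine ⟨K, max N₂ (max N₃ (c * G₀ ^ 2)), fun a x ν hx hν0 ha hν hu => ?_⟩
  have hN2 : N₂ ≤ max N₂ (max N₃ (c * G₀ ^ 2)) := le_max_left _ _
  have hN3 : N₃ ≤ max N₂ (max N₃ (c * G₀ ^ 2)) := (le_max_left _ _).trans (le_max_right _ _)
  have hNc : c * G₀ ^ 2 ≤ max N₂ (max N₃ (c * G₀ ^ 2)) :=
    (le_max_right _ _).trans (le_max_right _ _)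
  set N₁ := max N₂ (max N₃ (c * G₀ ^ 2)) with hN1
  have hN3x : Y ≤ x := by
    have : (N₃ : ℚ) ≤ N₁ := by exact_mod_cast hN3
    linarith
  have hN2x : (N₂ : ℚ) ≤ x := by
    have : (N₂ : ℚ) ≤ N₁ := by exact_mod_cast hN2
    linarith
  have hYj : ∀ j : ℕ, N₁ ≤ j → Y ≤ (j : ℚ) := by
    intro j hj
    have : (N₃ : ℚ) ≤ j := by exact_mod_cast hN3.trans hj
    linarith
  have hYx : ∀ i : ℕ, Y ≤ x + i := by
    intro i
    have : (0 : ℚ) ≤ i := Nat.cast_nonneg i
    linarith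
  have hνm : ∀ i, i ≤ K → ν 0 ≤ ν i := by
    intro i
    induction i with
    | zero => exact fun _ => le_rfl
    | succ i ih =>
      intro hi
      exact (ih (by omega)).trans (hν i (by omega)).le
  -- the absolute values
  have hb : ∀ j, ν 0 ≤ j → 0 < |a j| ∧ |a (j + 1)| = rr (qp P) (qp Q) j * |a j| := by
    intro j hj
    obtain ⟨e1, e2⟩ := ha j hj
    refine ⟨abs_pos.2 e1, ?_⟩
    have e3 := abs_pos.2 (hne j (hYj j (hν0.trans hj))).2
    have e4 := congrArg abs e2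
    rw [abs_mul, abs_mul] at e4
    unfold rr
    rw [div_mul_eq_mul_div, eq_div_iff e3.ne', ← e4, mul_comm]
  have hbx : ∀ i : ℕ, i < K → |a (ν (i + 1))| = rr (qp P) (qp Q) (x + i) * |a (ν i)| := by
    intro i hi
    have e3 := abs_pos.2 (hne (x + i) (hYx i)).2
    have e4 := congrArg abs (hu i hi)
    rw [abs_mul, abs_mul] at e4
    unfold rr
    rw [div_mul_eq_mul_div, eq_div_iff e3.ne', ← e4, mul_comm]
  set g : ℕ → ℕ := fun i => ν (i + 1) - ν i with hg
  have hg1 : ∀ i, i < K → 1 ≤ g i := fun i hi => by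
    have := hν i hi
    simp only [hg]
    omega
  have hgν : ∀ i, i < K → ν i + g i = ν (i + 1) := fun i hi => by
    have := hν i hi
    simp only [hg]
    omega
  have htwo : ∀ i, i + 1 < K → g (i + 1) ≤ g i ∧
      ((g i = 1 ∧ g (i + 1) = 1) ∨ ν i < c * g i ^ 2) := by
    intro i hi
    have e0 := hνm i (by omega)
    refine h2 (fun j => |a j|) (x + i) (ν i) (g i) (g (i + 1)) (hN2.trans (hν0.trans e0))
      (by have : (0 : ℚ) ≤ i := Nat.cast_nonneg i
          linarith) (fun j hj => hb j (e0.trans hj)) (hg1 i (by omega)) ?_ ?_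
    · rw [hgν i (by omega)]
      exact hbx i (by omega)
    · rw [hgν i (by omega), hgν (i + 1) hi]
      have e1 := hbx (i + 1) hi
      have e2 : x + ((i + 1 : ℕ) : ℚ) = x + i + 1 := by push_cast; ring
      rw [e2] at e1
      exact e1
  by_cases hall : ∀ i, i ≤ E → ν i < c * g i ^ 2
  · exfalso
    refine no_window hPs hQs hd hpE x fun i hi => ?_
    have hiK : i < K := by omega
    have e0 := hνm i (by omega)
    have e1 := hall i hi
    have e2 : G₀ ^ 2 < g i ^ 2 := by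
      have : c * G₀ ^ 2 < c * g i ^ 2 := lt_of_le_of_lt (hNc.trans (hν0.trans e0)) e1
      exact lt_of_mul_lt_mul_left this (Nat.zero_le _)
    have e3 : G₀ < g i := lt_of_pow_lt_pow_left₀ 2 (Nat.zero_le _) e2
    have e4 := hG a (ν i) (g i) e3.le e1.le (fun j hj1 hj2 => by
      obtain ⟨f1, f2⟩ := ha j (e0.trans hj1)
      have f3 := hne j (hYj j (hν0.trans (e0.trans hj1)))
      rw [qp_nat, qp_nat] at f2 f3
      refine ⟨?_, ?_, f2⟩
      · exact_mod_cast f3.1
      · exact_mod_cast f3.2) (ha (ν i) e0).1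
    rw [hgν i hiK] at e4
    have e5 := congrArg (fun z : ℚ => ‖((z : ℚ) : ℚ_[p])‖) (hu i hiK)
    simp only [Rat.cast_mul, norm_mul] at e5
    rw [qp_padic, qp_padic] at e5
    have e6 : 0 < ‖((a (ν i) : ℚ) : ℚ_[p])‖ := by
      rw [norm_pos_iff]
      exact_mod_cast (ha (ν i) e0).1
    have e7 : 0 < ‖aeval ((x : ℚ_[p]) + i) Q‖ := by
      rw [norm_pos_iff, ← qp_padic]
      exact_mod_cast (hne (x + i) (hYx i)).2
    refine lt_of_mul_lt_mul_right ?_ e6.le
    rw [← e5]
    exact mul_lt_mul_of_pos_left e4 e7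
  · push Not at hall
    obtain ⟨i, hiE, hi⟩ := hall
    have hi1 : g i = 1 ∧ g (i + 1) = 1 := (htwo i (by omega)).2.resolve_right (by omega)
    have hgap : ∀ l, i + l < K → g (i + l) = 1 := by
      intro l
      induction l with
      | zero => exact fun _ => hi1.1
      | succ l ih =>
        intro hl
        have e1 := ih (by omega)
        have e2 := (htwo (i + l) (by omega)).1
        have e3 := hg1 (i + l + 1) (by omega)
        rw [e1] at e2
        rw [← add_assoc]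
        omega
    have hνl : ∀ l, i + l ≤ K → ν (i + l) = ν i + l := by
      intro l
      induction l with
      | zero => exact fun _ => rfl
      | succ l ih =>
        intro hl
        have e1 := hgν (i + l) (by omega)
        rw [hgap l (by omega), ih (by omega)] at e1
        rw [← add_assoc, ← e1]
        rfl
    refine ⟨i, by omega, ?_⟩
    have hδ := shift_zero hP hQ hd (δ := x + i - ν i) (by
      rw [← sub_eq_zero]
      refine eq_zero_of_natDegree_lt_card_of_eval_eq_zero _ (ι := Fin (E + F + 1))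
        (f := fun l => ((ν i + (l : ℕ) : ℕ) : ℚ)) ?_ (fun l => ?_) ?_
      · intro l l' hll
        have hll' : ((ν i + (l : ℕ) : ℕ) : ℚ) = ((ν i + (l' : ℕ) : ℕ) : ℚ) := hll
        have : ν i + (l : ℕ) = ν i + (l' : ℕ) := Nat.cast_injective hll'
        exact Fin.ext (by omega)
      · have hl : i + (l : ℕ) < K := by omega
        have e0 := hνm i (by omega)
        have e1 := hu (i + l) hl
        have e2 : ν (i + (l : ℕ)) = ν i + l := hνl l (by omega)
        have e3 : ν (i + (l : ℕ) + 1) = ν i + l + 1 := hνl (l + 1) (by omega)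
        rw [e2, e3] at e1
        obtain ⟨e4, e5⟩ := ha (ν i + l) (by omega)
        rw [eval_sub, eval_mul, eval_mul, taylor_eval, taylor_eval, sub_eq_zero]
        have e6 : ((ν i + (l : ℕ) : ℕ) : ℚ) + (x + i - ν i) = x + ((i + (l : ℕ) : ℕ) : ℚ) := by
          push_cast
          ring
        rw [e6]
        refine mul_right_cancel₀ e4 ?_
        calc _ = (qp Q).eval ((ν i + (l : ℕ) : ℕ) : ℚ) *
              ((qp P).eval (x + ((i + (l : ℕ) : ℕ) : ℚ)) * a (ν i + l)) := by ring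
          _ = (qp Q).eval (x + ((i + (l : ℕ) : ℕ) : ℚ)) *
              ((qp Q).eval ((ν i + (l : ℕ) : ℕ) : ℚ) * a (ν i + l + 1)) := by rw [← e1]; ring
          _ = _ := by rw [e5]; ring
      · rw [Fintype.card_fin]
        refine Nat.lt_succ_of_le ((natDegree_sub_le _ _).trans (max_le ?_ ?_))
        · refine natDegree_mul_le.trans ?_
          rw [natDegree_taylor, qp_deg, qp_deg]
        · refine natDegree_mul_le.trans ?_
          rw [natDegree_taylor, qp_deg, qp_deg, add_comm])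
    linarith

end Pool.Agent.H43R
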