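import Pool.Agent.H43R.HDef
import Pool.Agent.H43R.Hyp.HF

/-!
# Existential definitions from hypergeometric sequences
-/

set_option autoImplicit false
set_option maxHeartbeats 1000000

namespace Pool.Agent.H43R

open Polynomial Filter Topology
open Pool.Agent.TH255.HC Pool.Agent.TH255.QI Pool.Agent.K9h58.QD

variable {𝒯 : Set ℚ → Prop}

/-- eventually `a n ≠ 0` and `Q(n) a(n + 1) = P(n) a(n)` -/
def HypRec (P Q : ℤ[X]) (a : ℕ → ℚ) : Prop :=
  ∀ᶠ n : ℕ in atTop, a n ≠ 0 ∧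
    ((Q.eval (n : ℤ) : ℤ) : ℚ) * a (n + 1) = ((P.eval (n : ℤ) : ℤ) : ℚ) * a n

/-- the class of the sets of values -/
def Vals (a : ℕ → ℚ) (K : ℕ) (α : ℝ) (T : Set ℚ) : Prop :=
  ∃ S : Set ℕ, Dns {n : ℕ | ∀ i, i ≤ K → n + i ∈ S} α ∧ T = a '' S

/-- the numbers recovered from windows -/
def Hs (K : ℕ) (P Q : ℚ[X]) (B : ℚ) (N₁ : ℕ) (T : Set ℚ) : Set ℚ :=
  {x | ∃ u : ℕ → ℚ, (∀ i ∈ List.range (K + 1), u i ∈ T ∧ B ^ 2 * 1 < u i ^ 2) ∧
    (∀ i ∈ List.range K, u i ^ 2 < u (i + 1) ^ 2 ∧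
      Q.eval (x + i) * u (i + 1) + (-1) * (P.eval (x + i) * u i) = 0) ∧ (N₁ : ℚ) ≤ x}

theorem dt_Hs (K : ℕ) (P Q : ℚ[X]) (B : ℚ) (N₁ : ℕ) :
    DT 𝒯 (fun T v => v 0 ∈ Hs K P Q B N₁ T) := by
  refine DT.exs (P := fun T v u =>
    (∀ i ∈ List.range (K + 1), u i ∈ T ∧ B ^ 2 * 1 < u i ^ 2) ∧
    (∀ i ∈ List.range K, u i ^ 2 < u (i + 1) ^ 2 ∧
      Q.eval (v 0 + i) * u (i + 1) + (-1) * (P.eval (v 0 + i) * u i) = 0) ∧ (N₁ : ℚ) ≤ v 0) ?_
  refine DT.and ?_ (DT.and ?_ ?_)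
  · exact DT.list _ fun i => (DT.mem (PF.od i)).and (dt_rat_lt (B ^ 2) PF.one ((PF.od i).pow 2))
  · refine DT.list _ fun i => (dt_lt ((PF.od i).pow 2) ((PF.od (i + 1)).pow 2)).and (QF.dt ?_)
    have hx : QF (fun w : ℕ → ℚ => w (2 * 0) + (i : ℚ)) :=
      (QF.of_pf (PF.var (2 * 0))).add (QF.const i)
    exact ((QF.poly Q hx).mul (QF.of_pf (PF.od (i + 1)))).add
      ((QF.const (-1)).mul ((QF.poly P hx).mul (QF.of_pf (PF.od i))))
  · have h1 : PF (fun _ : ℕ → ℚ => (N₁ : ℚ)) := by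
      have := PF.int (N₁ : ℤ)
      simpa using this
    exact DT.le h1 (PF.var (2 * 0))

/-- the bound for the first terms -/
lemma bounds_exist {a : ℕ → ℚ} {N₁ : ℕ}
    (h : ∀ j, N₁ ≤ j → a j ≠ 0 ∧ 2 * |a j| ≤ |a (j + 1)|) :
    ∃ (B : ℚ) (n₁ : ℕ), 0 ≤ B ∧ N₁ ≤ n₁ ∧ (∀ n, n₁ ≤ n → B < |a n|) ∧
      ∀ i, B < |a i| → N₁ ≤ i := by
  set B : ℚ := ∑ i ∈ Finset.range N₁, |a i| with hB
  have hB0 : 0 ≤ B := Finset.sum_nonneg fun _ _ => abs_nonneg _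
  have hgk : ∀ k, 2 ^ k * |a N₁| ≤ |a (N₁ + k)| := by
    intro k
    induction k with
    | zero => simp
    | succ k ih =>
      have e1 := (h (N₁ + k) (by omega)).2
      calc 2 ^ (k + 1) * |a N₁| = 2 * (2 ^ k * |a N₁|) := by ring
        _ ≤ 2 * |a (N₁ + k)| := by linarith
        _ ≤ _ := e1
  obtain ⟨K, hK⟩ : ∃ K : ℕ, ∀ k, K ≤ k → B < 2 ^ k * |a N₁| := by
    have e1 : Tendsto (fun k : ℕ => (2 : ℚ) ^ k * |a N₁|) atTop atTop :=
      (tendsto_pow_atTop_atTop_of_one_lt (by norm_num)).atTop_mul_const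
        (abs_pos.2 (h N₁ le_rfl).1)
    exact eventually_atTop.1 (e1.eventually_gt_atTop B)
  refine ⟨B, N₁ + K, hB0, by omega, fun n hn => ?_, fun i hi => ?_⟩
  · obtain ⟨k, rfl⟩ : ∃ k, n = N₁ + k := ⟨n - N₁, by omega⟩
    exact lt_of_lt_of_le (hK k (by omega)) (hgk k)
  · by_contra hc
    push Not at hc
    have := Finset.single_le_sum (f := fun i => |a i|) (fun _ _ => abs_nonneg _)
      (Finset.mem_range.2 hc)
    linarith

/-- the case of superexponential growth -/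
theorem dt_hyp_gt {P Q : ℤ[X]} (hP : P ≠ 0) (hQ : Q ≠ 0) (hd : Q.natDegree < P.natDegree)
    {a : ℕ → ℚ} (ha : HypRec P Q a) :
    ∃ K : ℕ, ∀ {α : ℝ}, 0 < α → ∀ {P' : (ℕ → ℚ) → Prop},
      (∀ A δ : ℝ, δ < 1 / 2 → DT (Qu A δ) (fun _ v => P' v)) →
      DT (Vals a K α) (fun _ v => P' v) := by
  obtain ⟨K, N₂, hwin⟩ := hyp_window hP hQ hd
  obtain ⟨c₁, c₂, c₄, Y, H, hne⟩ := exists_reg hP hQ hd
  obtain ⟨N₃, hN₃⟩ := exists_nat_ge Y
  obtain ⟨N₄, hN₄⟩ := eventually_atTop.1 ha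
  set N₁ := max N₂ (max N₃ N₄) with hN1
  have hN2 : N₂ ≤ N₁ := le_max_left _ _
  have hN3 : N₃ ≤ N₁ := (le_max_left _ _).trans (le_max_right _ _)
  have hN4 : N₄ ≤ N₁ := (le_max_right _ _).trans (le_max_right _ _)
  have hYj : ∀ j : ℕ, N₁ ≤ j → Y ≤ (j : ℚ) := by
    intro j hj
    have : (N₃ : ℚ) ≤ j := by exact_mod_cast hN3.trans hj
    linarith
  have hrec : ∀ j, N₁ ≤ j → a j ≠ 0 ∧
      (qp Q).eval (j : ℚ) * a (j + 1) = (qp P).eval (j : ℚ) * a j := by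
    intro j hj
    rw [qp_nat, qp_nat]
    exact hN₄ j (hN4.trans hj)
  have hgrow : ∀ j, N₁ ≤ j → a j ≠ 0 ∧ 2 * |a j| ≤ |a (j + 1)| := by
    intro j hj
    obtain ⟨e1, e2⟩ := hrec j hj
    refine ⟨e1, ?_⟩
    have e3 := abs_pos.2 (hne j (hYj j hj)).2
    have e4 := congrArg abs e2
    rw [abs_mul, abs_mul] at e4
    have e5 := H.big j (hYj j hj)
    unfold rr at e5
    rw [le_div_iff₀ e3] at e5
    have e6 : 0 < |a j| := abs_pos.2 e1
    refine le_of_mul_le_mul_left ?_ e3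
    rw [e4]
    nlinarith
  obtain ⟨B, n₁, hB, hn1, h1, h2⟩ := bounds_exist hgrow
  have hmono : ∀ j k, N₁ ≤ j → j ≤ k → |a j| ≤ |a k| := by
    intro j k hj hjk
    obtain ⟨l, rfl⟩ : ∃ l, k = j + l := ⟨k - j, by omega⟩
    clear hjk
    induction l with
    | zero => exact le_rfl
    | succ l ih =>
      have := (hgrow (j + l) (by omega)).2
      have e : 0 ≤ |a (j + l)| := abs_nonneg _
      rw [← add_assoc]
      linarith
  refine ⟨K, fun {α} hα {P'} hP' => ?_⟩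
  refine dt_sub (Φ := Hs K (qp P) (qp Q) B N₁) (𝒯' := fun T => (∀ x ∈ T, ∃ z : ℤ, x = z) ∧
    Banach (MvPolynomial.X 0 : MvPolynomial (Fin 1) ℤ) (α / 2) T) ?_
    (dt_Hs K (qp P) (qp Q) B N₁) (dt_banach _ (by positivity) hP')
  rintro T ⟨S, hS, rfl⟩
  refine ⟨?_, ?_⟩
  · rintro x ⟨u, hu1, hu2, hx⟩
    have hex : ∀ i, ∃ n, i ≤ K → a n = u i := by
      intro i
      by_cases hi : i ≤ K
      · obtain ⟨⟨n, -, hn⟩, -⟩ := hu1 i (List.mem_range.2 (by omega))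
        exact ⟨n, fun _ => hn⟩
      · exact ⟨0, fun h => absurd h hi⟩
    choose ν hν using hex
    have hνN : ∀ i, i ≤ K → N₁ ≤ ν i := by
      intro i hi
      refine h2 _ ?_
      rw [hν i hi]
      exact abs_of_sq hB (hu1 i (List.mem_range.2 (by omega))).2
    obtain ⟨i, hi, hxi⟩ := hwin a x ν (by
        have : (N₂ : ℚ) ≤ N₁ := by exact_mod_cast hN2
        linarith) (hN2.trans (hνN 0 (Nat.zero_le _)))
      (fun j hj => hrec j ((hνN 0 (Nat.zero_le _)).trans hj))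
      (fun i hi => by
        have e1 := (hu2 i (List.mem_range.2 hi)).1
        rw [← hν i hi.le, ← hν (i + 1) hi, sq_lt_sq] at e1
        by_contra hcon
        push Not at hcon
        have := hmono _ _ (hνN (i + 1) hi) hcon
        linarith)
      (fun i hi => by
        have e1 := (hu2 i (List.mem_range.2 hi)).2
        rw [← hν i hi.le, ← hν (i + 1) hi] at e1
        linarith)
    refine ⟨(ν i : ℤ) - i, ?_⟩
    push_cast
    linarith
  · refine banach_of_dns (k := K) (J := 0) (N := N₁) (n₁ := n₁) hα (by simpa using hS)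
      fun n hn hN hw => ?_
    rw [add_zero] at hw
    refine ⟨fun i => a (n + i), fun i hi => ⟨⟨n + i, hw i ?_, rfl⟩, ?_⟩, fun i hi => ⟨?_, ?_⟩, ?_⟩
    · have := List.mem_range.1 hi
      omega
    · rw [mul_one]
      exact sq_lt_sq.2 (by rw [abs_of_nonneg hB]; exact h1 (n + i) (by omega))
    · obtain ⟨e1, e2⟩ := hgrow (n + i) (by omega)
      have e3 : 0 < |a (n + i)| := abs_pos.2 e1
      rw [sq_lt_sq]
      change |a (n + i)| < |a (n + (i + 1))|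
      rw [← add_assoc]
      linarith
    · have e1 := (hrec (n + i) (by omega)).2
      push_cast at e1
      change (qp Q).eval ((n : ℚ) + i) * a (n + (i + 1)) + -1 * ((qp P).eval ((n : ℚ) + i) *
        a (n + i)) = 0
      rw [← add_assoc, e1]
      ring
    · exact_mod_cast hN

/-- inverses -/
theorem dt_inv {a : ℕ → ℚ} {K : ℕ} {α : ℝ} {P' : (ℕ → ℚ) → Prop}
    (h : DT (Vals (fun n => (a n)⁻¹) K α) (fun _ v => P' v)) :
    DT (Vals a K α) (fun _ v => P' v) := by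
  refine dt_sub (Φ := fun T => {y | ∃ t ∈ T, t * y ^ 2 = y ∧ y * t ^ 2 = t}) ?_ ?_ h
  · rintro T ⟨S, hS, rfl⟩
    refine ⟨S, hS, ?_⟩
    ext y
    constructor
    · rintro ⟨t, ⟨n, hn, rfl⟩, h1, h2⟩
      refine ⟨n, hn, ?_⟩
      change (a n)⁻¹ = y
      by_cases h0 : a n = 0
      · rw [h0] at h1 ⊢
        simpa using h1
      · have h3 : y * a n = 1 := by
          have : (y * a n - 1) * a n = 0 := by linarith
          have := (mul_eq_zero.1 this).resolve_right h0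
          linarith
        exact (eq_inv_of_mul_eq_one_left h3).symm
    · rintro ⟨n, hn, rfl⟩
      refine ⟨a n, ⟨n, hn, rfl⟩, ?_, ?_⟩
      · by_cases h0 : a n = 0
        · simp [h0]
        · field_simp
      · by_cases h0 : a n = 0
        · simp [h0]
        · field_simp
  · have h1 : DT (Vals a K α) (fun T v => ∃ u : ℕ → ℚ, u 0 ∈ T ∧ u 0 * v 0 ^ 2 = v 0 ∧
        v 0 * u 0 ^ 2 = u 0) :=
      DT.exs ((DT.mem (PF.od 0)).and ((DT.eq ((PF.od 0).mul ((PF.var (2 * 0)).pow 2))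
        (PF.var (2 * 0))).and (DT.eq ((PF.var (2 * 0)).mul ((PF.od 0).pow 2)) (PF.od 0))))
    refine h1.congr fun T _ v => ?_
    constructor
    · rintro ⟨t, ht, h1, h2⟩
      exact ⟨fun _ => t, ht, h1, h2⟩
    · rintro ⟨u, hu, h1, h2⟩
      exact ⟨u 0, hu, h1, h2⟩

lemma HypRec.inv {P Q : ℤ[X]} {a : ℕ → ℚ} (h : HypRec P Q a) :
    HypRec Q P (fun n => (a n)⁻¹) := by
  obtain ⟨N, hN⟩ := eventually_atTop.1 h
  refine eventually_atTop.2 ⟨N, fun n hn => ?_⟩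
  obtain ⟨h1, h2⟩ := hN n hn
  obtain ⟨h3, -⟩ := hN (n + 1) (by omega)
  refine ⟨inv_ne_zero h1, ?_⟩
  dsimp only
  rw [← div_eq_mul_inv, ← div_eq_mul_inv, div_eq_div_iff h3 h1]
  linarith

end Pool.Agent.H43R
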