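import Pool.Agent.H43R.Hyp.HG

/-!
# The case of exponential growth, and the general theorem
-/

set_option autoImplicit false
set_option maxHeartbeats 1000000

namespace Pool.Agent.H43R

open Polynomial Filter Topology
open Pool.Agent.TH255.HC Pool.Agent.TH255.QI Pool.Agent.K9h58.QD

variable {𝒯 : Set ℚ → Prop}

/-- a quotient of polynomials with a period is constant -/
lemma shift_prop {P Q : ℚ[X]} (hQ : Q ≠ 0) {δ : ℚ} (hδ : δ ≠ 0)
    (h : taylor δ P * Q = taylor δ Q * P) : ∃ c : ℚ, P = C c * Q := by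
  have hk : ∀ k : ℕ, taylor (k * δ) P * Q = taylor (k * δ) Q * P := by
    intro k
    induction k with
    | zero => simp [mul_comm]
    | succ k ih =>
      have hne : taylor (k * δ) Q ≠ 0 := by
        intro hcon
        apply hQ
        exact (taylor_eq_zero _ _).1 hcon
      apply mul_right_cancel₀ hne
      have e1 := congrArg (taylor (k * δ)) h
      rw [taylor_mul, taylor_mul, taylor_taylor, taylor_taylor] at e1
      have e2 : ((k + 1 : ℕ) : ℚ) * δ = δ + k * δ := by push_cast; ring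
      rw [e2]
      have e3 : taylor (δ + k * δ) P * taylor (k * δ) Q =
          taylor (δ + k * δ) Q * taylor (k * δ) P := by
        first
          | exact e1
          | (rw [add_comm]; exact e1)
      calc _ = (taylor (δ + k * δ) P * taylor (k * δ) Q) * Q := by ring
        _ = taylor (δ + k * δ) Q * (taylor (k * δ) P * Q) := by rw [e3]; ring
        _ = _ := by rw [ih]; ring
  obtain ⟨y, hy⟩ : ∃ y, Q.eval y ≠ 0 := by
    by_contra hcon
    push Not at hcon
    exact hQ (Polynomial.funext fun y => by rw [hcon y, eval_zero])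
  refine ⟨P.eval y / Q.eval y, ?_⟩
  have h1 : C (Q.eval y) * P = C (P.eval y) * Q := by
    refine eq_of_infinite_eval_eq _ _ ?_
    refine Set.Infinite.mono (s := (fun k : ℕ => y + k * δ) '' Set.univ) ?_
      (Set.infinite_univ.image ?_)
    · rintro _ ⟨k, -, rfl⟩
      have e1 := congrArg (eval y) (hk k)
      rw [eval_mul, eval_mul, taylor_eval, taylor_eval] at e1
      change eval (y + k * δ) (C (Q.eval y) * P) = eval (y + k * δ) (C (P.eval y) * Q)
      rw [eval_mul, eval_mul, eval_C, eval_C]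
      linarith
    · intro k _ l _ hkl
      have e1 : (k : ℚ) * δ = l * δ := by
        have : y + k * δ = y + l * δ := hkl
        linarith
      exact_mod_cast mul_right_cancel₀ hδ e1
  have hC : C (Q.eval y) * (C (P.eval y / Q.eval y) * Q) = C (P.eval y) * Q := by
    rw [← mul_assoc, ← C_mul, mul_div_cancel₀ _ hy]
  rw [← hC] at h1
  exact mul_left_cancel₀ (C_ne_zero.2 hy) h1

/-- the numbers recovered from windows -/
def He (K : ℕ) (P Q : ℚ[X]) (B m : ℚ) (T : Set ℚ) : Set ℚ :=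
  {x | ∃ u : ℕ → ℚ, (∀ i ∈ List.range (K + 1), u i ∈ T ∧ B ^ 2 * 1 < u i ^ 2) ∧
    ∀ i ∈ List.range K, (u i ^ 2 < u (i + 1) ^ 2 ∧ u (i + 1) ^ 2 < m ^ 4 * u i ^ 2) ∧
      Q.eval (x + i) * u (i + 1) + (-1) * (P.eval (x + i) * u i) = 0}

theorem dt_He (K : ℕ) (P Q : ℚ[X]) (B m : ℚ) :
    DT 𝒯 (fun T v => v 0 ∈ He K P Q B m T) := by
  refine DT.exs (P := fun T v u =>
    (∀ i ∈ List.range (K + 1), u i ∈ T ∧ B ^ 2 * 1 < u i ^ 2) ∧
    ∀ i ∈ List.range K, (u i ^ 2 < u (i + 1) ^ 2 ∧ u (i + 1) ^ 2 < m ^ 4 * u i ^ 2) ∧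
      Q.eval (v 0 + i) * u (i + 1) + (-1) * (P.eval (v 0 + i) * u i) = 0) ?_
  refine DT.and ?_ ?_
  · exact DT.list _ fun i => (DT.mem (PF.od i)).and (dt_rat_lt (B ^ 2) PF.one ((PF.od i).pow 2))
  · refine DT.list _ fun i => ((dt_lt ((PF.od i).pow 2) ((PF.od (i + 1)).pow 2)).and
      (dt_lt_rat (m ^ 4) ((PF.od i).pow 2) ((PF.od (i + 1)).pow 2))).and (QF.dt ?_)
    have hx : QF (fun w : ℕ → ℚ => w (2 * 0) + (i : ℚ)) :=
      (QF.of_pf (PF.var (2 * 0))).add (QF.const i)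
    exact ((QF.poly Q hx).mul (QF.of_pf (PF.od (i + 1)))).add
      ((QF.const (-1)).mul ((QF.poly P hx).mul (QF.of_pf (PF.od i))))

lemma ev_nat {F : ℤ[X]} (hF : F ≠ 0) : ∀ᶠ n : ℕ in atTop, (qp F).eval (n : ℚ) ≠ 0 :=
  tendsto_natCast_atTop_atTop.eventually (eventually_ne' (qp_ne hF))

/-- exponential growth -/
lemma grow_hyp {P Q : ℤ[X]} (hP : P ≠ 0) (hQ : Q ≠ 0) (hd : P.natDegree = Q.natDegree)
    (hl : |Q.leadingCoeff| < |P.leadingCoeff|) {a : ℕ → ℚ} (ha : HypRec P Q a) :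
    ∃ m : ℚ, Grow a m := by
  set c : ℚ := |(qp P).leadingCoeff / (qp Q).leadingCoeff| with hc
  have hlcP : (qp P).leadingCoeff = (P.leadingCoeff : ℚ) := by
    unfold qp
    rw [leadingCoeff_map_of_injective (Int.castRingHom ℚ).injective_int]
    rfl
  have hlcQ : (qp Q).leadingCoeff = (Q.leadingCoeff : ℚ) := by
    unfold qp
    rw [leadingCoeff_map_of_injective (Int.castRingHom ℚ).injective_int]
    rfl
  have hQ0 : (0 : ℚ) < |(Q.leadingCoeff : ℚ)| := by
    rw [abs_pos]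
    exact_mod_cast leadingCoeff_ne_zero.2 hQ
  have hc1 : 1 < c := by
    rw [hc, hlcP, hlcQ, abs_div, lt_div_iff₀ hQ0, one_mul]
    exact_mod_cast hl
  have hdeg : (qp P).degree = (qp Q).degree := by
    rw [degree_eq_natDegree (qp_ne hP), degree_eq_natDegree (qp_ne hQ), qp_deg, qp_deg, hd]
  have hlim := (div_tendsto_atTop_leadingCoeff_div_of_degree_eq (qp P) (qp Q) hdeg).abs
  rw [← hc] at hlim
  set m := (1 + c) / 2 with hm
  have h1 := hlim.eventually_const_lt (show m < c by rw [hm]; linarith)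
  have h2 := hlim.eventually_lt_const (show c < m ^ 2 by
    rw [hm]
    nlinarith [sq_nonneg (c - 1), mul_pos (sub_pos.2 hc1) (sub_pos.2 hc1)])
  have h3 := (tendsto_natCast_atTop_atTop (R := ℚ)).eventually (h1.and h2)
  refine ⟨m, by rw [hm]; linarith, ?_⟩
  filter_upwards [h3, ha, ev_nat hQ] with n hn ha' hQn
  obtain ⟨e1, e2⟩ := hn
  obtain ⟨e3, e4⟩ := ha'
  rw [← qp_nat, ← qp_nat] at e4
  have e5 : 0 < |a n| := abs_pos.2 e3
  have e6 : |a (n + 1)| = |(qp P).eval (n : ℚ) / (qp Q).eval (n : ℚ)| * |a n| := by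
    rw [← abs_mul]
    congr 1
    field_simp
    linarith
  rw [e6]
  exact ⟨mul_lt_mul_of_pos_right e1 e5, mul_lt_mul_of_pos_right e2 e5⟩

/-- the case of exponential growth -/
theorem dt_hyp_eq {P Q : ℤ[X]} (hP : P ≠ 0) (hQ : Q ≠ 0) (hd : P.natDegree = Q.natDegree)
    (hl : |Q.leadingCoeff| < |P.leadingCoeff|) (hne : ∀ c : ℚ, qp P ≠ C c * qp Q)
    {a : ℕ → ℚ} (ha : HypRec P Q a) :
    ∃ K : ℕ, ∀ {α : ℝ}, 0 < α → ∀ {P' : (ℕ → ℚ) → Prop},
      (∀ A δ : ℝ, δ < 1 / 2 → DT (Qu A δ) (fun _ v => P' v)) →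
      DT (Vals a K α) (fun _ v => P' v) := by
  obtain ⟨m, hm⟩ := grow_hyp hP hQ hd hl ha
  obtain ⟨N₁, hN₁⟩ := eventually_atTop.1 ha
  obtain ⟨B, n₁, hB, h1, h2, h3⟩ := consecutive a hm N₁
  set K := P.natDegree + Q.natDegree + 1 with hK
  refine ⟨K, fun {α} hα {P'} hP' => ?_⟩
  refine dt_sub (Φ := He K (qp P) (qp Q) B m) (𝒯' := fun T => (∀ x ∈ T, ∃ z : ℤ, x = z) ∧
    Banach (MvPolynomial.X 0 : MvPolynomial (Fin 1) ℤ) (α / 2) T) ?_
    (dt_He K (qp P) (qp Q) B m) (dt_banach _ (by positivity) hP')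
  have hrec : ∀ j, N₁ ≤ j → a j ≠ 0 ∧
      (qp Q).eval (j : ℚ) * a (j + 1) = (qp P).eval (j : ℚ) * a j := by
    intro j hj
    rw [qp_nat, qp_nat]
    exact hN₁ j hj
  rintro T ⟨S, hS, rfl⟩
  refine ⟨?_, ?_⟩
  · rintro x ⟨u, hu1, hu2⟩
    obtain ⟨⟨n, -, hn⟩, hn'⟩ := hu1 0 (by simp)
    have key : ∀ i, i ≤ K → u i = a (n + i) := by
      intro i
      induction i with
      | zero => exact fun _ => hn.symm
      | succ i ih =>
        intro hi
        have e1 := ih (by omega)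
        obtain ⟨⟨j, -, hj⟩, hj'⟩ := hu1 (i + 1) (by rw [List.mem_range]; omega)
        obtain ⟨-, hi'⟩ := hu1 i (by rw [List.mem_range]; omega)
        obtain ⟨⟨e2, e3⟩, -⟩ := hu2 i (by rw [List.mem_range]; omega)
        rw [← hj] at hj' e2 e3 ⊢
        rw [e1] at hi' e2 e3
        have e4 := h3 (n + i) j (abs_of_sq hB hi') (abs_of_sq hB hj') e2 e3
        rw [e4]
        rfl
    have hN : N₁ ≤ n := h2 n (by rw [hn]; exact abs_of_sq hB hn')
    refine ⟨n, ?_⟩
    by_contra hcon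
    have hδ : x - n ≠ 0 := by
      intro h0
      apply hcon
      push_cast
      linarith
    obtain ⟨c, hc⟩ := shift_prop (P := qp P) (Q := qp Q) (qp_ne hQ) hδ (by
      rw [← sub_eq_zero]
      refine eq_zero_of_natDegree_lt_card_of_eval_eq_zero _ (ι := Fin K)
        (f := fun l => ((n + (l : ℕ) : ℕ) : ℚ)) ?_ (fun l => ?_) ?_
      · intro l l' hll
        have hll' : ((n + (l : ℕ) : ℕ) : ℚ) = ((n + (l' : ℕ) : ℕ) : ℚ) := hll
        have : n + (l : ℕ) = n + (l' : ℕ) := Nat.cast_injective hll'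
        exact Fin.ext (by omega)
      · have e1 := (hu2 l (List.mem_range.2 l.2)).2
        rw [key l (by omega), key (l + 1) (by omega), ← add_assoc] at e1
        obtain ⟨e4, e5⟩ := hrec (n + l) (by omega)
        rw [eval_sub, eval_mul, eval_mul, taylor_eval, taylor_eval, sub_eq_zero]
        have e6 : ((n + (l : ℕ) : ℕ) : ℚ) + (x - n) = x + (l : ℕ) := by
          push_cast
          ring
        rw [e6]
        have e7 : (qp Q).eval (x + (l : ℕ)) * a (n + l + 1) =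
            (qp P).eval (x + (l : ℕ)) * a (n + l) := by linarith
        refine mul_right_cancel₀ e4 ?_
        calc _ = (qp Q).eval ((n + (l : ℕ) : ℕ) : ℚ) *
              ((qp P).eval (x + (l : ℕ)) * a (n + l)) := by ring
          _ = (qp Q).eval (x + (l : ℕ)) *
              ((qp Q).eval ((n + (l : ℕ) : ℕ) : ℚ) * a (n + l + 1)) := by rw [← e7]; ring
          _ = _ := by rw [e5]; ring
      · rw [Fintype.card_fin]
        refine Nat.lt_succ_of_le ((natDegree_sub_le _ _).trans (max_le ?_ ?_))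
        · refine natDegree_mul_le.trans ?_
          rw [natDegree_taylor, qp_deg, qp_deg]
        · refine natDegree_mul_le.trans ?_
          rw [natDegree_taylor, qp_deg, qp_deg, add_comm])
    exact hne c hc
  · refine banach_of_dns (k := K) (J := 0) (N := N₁) (n₁ := n₁) hα (by simpa using hS)
      fun n hn hN hw => ?_
    rw [add_zero] at hw
    refine ⟨fun i => a (n + i), fun i hi => ⟨⟨n + i, hw i ?_, rfl⟩, ?_⟩, fun i hi => ⟨?_, ?_⟩⟩
    · have := List.mem_range.1 hi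
      omega
    · rw [mul_one]
      exact sq_lt_sq.2 (by rw [abs_of_nonneg hB]; exact (h1 (n + i) (by omega)).1)
    · exact (h1 (n + i) (by omega)).2
    · have e1 := (hrec (n + i) (by omega)).2
      push_cast at e1
      change (qp Q).eval ((n : ℚ) + i) * a (n + (i + 1)) + -1 * ((qp P).eval ((n : ℚ) + i) *
        a (n + i)) = 0
      rw [← add_assoc, e1]
      ring

/-- **Hypergeometric sequences.** -/
theorem dt_hyp {P Q : ℤ[X]} (hQ : Q ≠ 0) (hne : ∀ c : ℚ, qp P ≠ C c * qp Q)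
    (hlim : ¬ (P.natDegree = Q.natDegree ∧ |P.leadingCoeff| = |Q.leadingCoeff|))
    {a : ℕ → ℚ} (ha : HypRec P Q a) :
    ∃ K : ℕ, ∀ {α : ℝ}, 0 < α → ∀ {P' : (ℕ → ℚ) → Prop},
      (∀ A δ : ℝ, δ < 1 / 2 → DT (Qu A δ) (fun _ v => P' v)) →
      DT (Vals a K α) (fun _ v => P' v) := by
  have hP : P ≠ 0 := by
    rintro rfl
    apply hne 0
    simp [qp]
  have hne' : ∀ c : ℚ, qp Q ≠ C c * qp P := by
    intro c hc
    have hc0 : c ≠ 0 := by
      rintro rfl
      apply qp_ne hQ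
      rw [hc, C_0, zero_mul]
    apply hne c⁻¹
    rw [hc, ← mul_assoc, ← C_mul, inv_mul_cancel₀ hc0, C_1, one_mul]
  rcases lt_trichotomy P.natDegree Q.natDegree with h | h | h
  · obtain ⟨K, hK⟩ := dt_hyp_gt hQ hP h ha.inv
    exact ⟨K, fun hα _ hP' => dt_inv (hK hα hP')⟩
  · rcases lt_trichotomy |P.leadingCoeff| |Q.leadingCoeff| with h' | h' | h'
    · obtain ⟨K, hK⟩ := dt_hyp_eq hQ hP h.symm h' hne' ha.inv
      exact ⟨K, fun hα _ hP' => dt_inv (hK hα hP')⟩
    · exact absurd ⟨h, h'⟩ hlim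
    · exact dt_hyp_eq hP hQ h h' hne ha
  · exact dt_hyp_gt hP hQ h ha

end Pool.Agent.H43R
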