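import Pool.Agent.H43R.Hyp.HH

/-!
# Sequences whose quotients of consecutive terms tend to one
-/

set_option autoImplicit false
set_option maxHeartbeats 1000000

namespace Pool.Agent.H43R

open Polynomial Filter Topology

/-- `x ^ e r(x) → ρ > 0` -/
structure L1 (r : ℚ → ℚ) (e : ℕ) (ρ : ℚ) : Prop where
  pos : 0 < ρ
  lim : Tendsto (fun x : ℚ => x ^ e * r x) atTop (𝓝 ρ)

/-- `b (n + 1) = (1 + r n) b n` for `n ≥ N` -/
def St (r : ℚ → ℚ) (b : ℕ → ℚ) (N : ℕ) : Prop :=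
  ∀ n, N ≤ n → 0 < b n ∧ b (n + 1) = (1 + r n) * b n

lemma St.mono {r : ℚ → ℚ} {b : ℕ → ℚ} {N M : ℕ} (h : St r b N) (hNM : N ≤ M) : St r b M :=
  fun n hn => h n (hNM.trans hn)

lemma L1.bounds {r : ℚ → ℚ} {e : ℕ} {ρ : ℚ} (h : L1 r e ρ) {c₁ c₂ : ℚ} (h1 : c₁ < ρ)
    (h2 : ρ < c₂) : ∃ X : ℚ, 1 ≤ X ∧ ∀ x, X ≤ x → c₁ < x ^ e * r x ∧ x ^ e * r x < c₂ := by
  obtain ⟨X, hX⟩ := eventually_atTop.1
    ((h.lim.eventually_const_lt h1).and (h.lim.eventually_lt_const h2))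
  exact ⟨max X 1, le_max_right _ _, fun x hx => hX x ((le_max_left _ _).trans hx)⟩

lemma St.lt {r : ℚ → ℚ} {b : ℕ → ℚ} {N : ℕ} (h : St r b N) (hr : ∀ n : ℕ, N ≤ n → 0 < r n)
    {j l : ℕ} (hj : N ≤ j) (hjl : j < l) : b j < b l := by
  induction l, hjl using Nat.le_induction with
  | base =>
    obtain ⟨h1, h2⟩ := h j hj
    rw [h2]
    nlinarith [hr j hj]
  | succ l hl ih =>
    obtain ⟨h1, h2⟩ := h l (by omega)
    rw [h2]
    nlinarith [hr l (by omega)]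

lemma St.le {r : ℚ → ℚ} {b : ℕ → ℚ} {N : ℕ} (h : St r b N) (hr : ∀ n : ℕ, N ≤ n → 0 < r n)
    {j l : ℕ} (hj : N ≤ j) (hjl : j ≤ l) : b j ≤ b l := by
  rcases hjl.eq_or_lt with h1 | h1
  · rw [h1]
  · exact (h.lt hr hj h1).le

/-- the gaps are one -/
lemma gap_one {r : ℚ → ℚ} {e : ℕ} {ρ : ℚ} (h : L1 r e ρ) :
    ∃ (η X : ℚ), 0 < η ∧ 1 ≤ X ∧ (∀ x, X ≤ x → 0 < r x) ∧ ∀ (b : ℕ → ℚ) (N : ℕ), X ≤ N → St r b N →
      ∀ x : ℚ, X ≤ x → ∀ j l : ℕ, N ≤ j → N ≤ l → (j : ℚ) + 1 ≤ (1 + η) * x →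
        b l = (1 + r x) * b j → l = j + 1 := by
  have hρ := h.pos
  obtain ⟨X, hX1, hX⟩ := h.bounds (c₁ := 9 / 10 * ρ) (c₂ := 11 / 10 * ρ) (by linarith) (by linarith)
  obtain ⟨η, hη1, hη⟩ : ∃ η : ℚ, (1 + η) ^ e < 3 / 2 ∧ 0 < η := by
    have h1 : Tendsto (fun η : ℚ => (1 + η) ^ e) (𝓝[>] 0) (𝓝 1) := by
      have h2 : Continuous fun η : ℚ => (1 + η) ^ e := by fun_prop
      have h3 := h2.tendsto 0
      simp only [add_zero, one_pow] at h3
      exact h3.mono_left nhdsWithin_le_nhds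
    have h2 : ∀ᶠ η : ℚ in 𝓝[>] 0, (1 + η) ^ e < 3 / 2 :=
      h1.eventually_lt_const (by norm_num)
    exact (h2.and self_mem_nhdsWithin).exists
  have hr : ∀ x, X ≤ x → 0 < r x := by
    intro x hx
    have h1 := (hX x hx).1
    have h2 : 0 < x ^ e := pow_pos (by linarith) _
    by_contra hcon
    push Not at hcon
    nlinarith [mul_nonneg h2.le (neg_nonneg.2 hcon)]
  refine ⟨η, X, hη, hX1, hr, fun b N hN hb x hx j l hj hl hjx hbl => ?_⟩
  have hNj : ∀ n : ℕ, N ≤ n → X ≤ (n : ℚ) := fun n hn => hN.trans (by exact_mod_cast hn)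
  have hrN : ∀ n : ℕ, N ≤ n → 0 < r n := fun n hn => hr n (hNj n hn)
  have hbj := (hb j hj).1
  have hrx := hr x hx
  by_contra hne
  rcases lt_or_ge j l with hlt | hge
  · have h2 : j + 2 ≤ l := by omega
    have h3 := hb.le hrN (by omega : N ≤ j + 2) h2
    have h4 := (hb j hj).2
    have h5 := (hb (j + 1) (by omega)).2
    have e0 : ((j + 1 : ℕ) : ℚ) = (j : ℚ) + 1 := by push_cast; ring
    rw [h4, e0] at h5
    have h6 : b (j + 1 + 1) = b (j + 2) := rfl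
    rw [h6] at h5
    rw [h5, hbl] at h3
    have h7 : (1 + r ((j : ℚ) + 1)) * (1 + r j) ≤ 1 + r x := by
      refine le_of_mul_le_mul_right ?_ hbj
      linarith
    have hj0 : X ≤ (j : ℚ) := hNj j hj
    have hrj := hrN j hj
    have hrj1 : 0 < r ((j : ℚ) + 1) := hr _ (by linarith)
    set t : ℚ := ((j : ℚ) + 1) ^ e with ht
    have ht0 : 0 < t := pow_pos (by linarith) _
    have hs0 : 0 < x ^ e := pow_pos (by linarith) _
    have hjt : (j : ℚ) ^ e ≤ t := pow_le_pow_left₀ (by linarith) (by linarith) _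
    have hts : t ≤ 3 / 2 * x ^ e := by
      calc t ≤ ((1 + η) * x) ^ e := pow_le_pow_left₀ (by linarith) hjx _
        _ = (1 + η) ^ e * x ^ e := mul_pow _ _ _
        _ ≤ _ := mul_le_mul_of_nonneg_right hη1.le hs0.le
    have k1 : 9 / 10 * ρ < t * r j :=
      lt_of_lt_of_le (hX j hj0).1 (mul_le_mul_of_nonneg_right hjt hrj.le)
    have k2 : 9 / 10 * ρ < t * r ((j : ℚ) + 1) := (hX _ (by linarith)).1
    have k3 : t * r x < 33 / 20 * ρ := by
      have := (hX x hx).2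
      calc t * r x ≤ 3 / 2 * x ^ e * r x := mul_le_mul_of_nonneg_right hts hrx.le
        _ = 3 / 2 * (x ^ e * r x) := by ring
        _ < _ := by linarith
    have k4 : t * (r j + r ((j : ℚ) + 1)) ≤ t * r x :=
      mul_le_mul_of_nonneg_left (by nlinarith) ht0.le
    linarith
  · have h1 := hb.le hrN hl hge
    rw [hbl] at h1
    nlinarith

/-- products with `1 + σ / n ^ m` -/
lemma bound_two {r : ℚ → ℚ} {m : ℕ} (hm : 0 < m) {ρ : ℚ} (h : L1 r (m + 1) ρ) {η : ℚ}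
    (hη : 0 < η) :
    ∃ κ σ : ℚ, 0 < κ ∧ σ ≤ (1 + η) * κ ∧ ∃ N₀ : ℕ, 1 ≤ N₀ ∧ ∀ (b : ℕ → ℚ) (N : ℕ), N₀ ≤ N →
      St r b N →
        (∀ j l : ℕ, N ≤ j → j ≤ l → (j : ℚ) ^ m * b l ≤ ((j : ℚ) ^ m + σ) * b j) ∧
        ∀ n : ℕ, N ≤ n → ∀ᶠ l : ℕ in atTop, ((n : ℚ) ^ m + κ) * b n < (n : ℚ) ^ m * b l := by
  have hρ := h.pos
  have hm0 : (0 : ℚ) < m := by exact_mod_cast hm
  set δ : ℚ := η / (2 + η) with hδ
  have hδ0 : 0 < δ := by positivity
  have hδ1 : δ < 1 := by rw [hδ, div_lt_one (by positivity)]; linarith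
  set κ : ℚ := (1 - δ) * (ρ / m) with hκ
  set σ : ℚ := (1 + δ) * (ρ / m) with hσ
  set τ : ℚ := (1 - δ / 2) * (ρ / m) with hτ
  have hρm : 0 < ρ / m := by positivity
  have hκ0 : 0 < κ := mul_pos (by linarith) hρm
  have hσ0 : 0 < σ := mul_pos (by linarith) hρm
  have hτ0 : 0 < τ := mul_pos (by linarith) hρm
  have hκτ : κ < τ := mul_lt_mul_of_pos_right (by linarith) hρm
  have hτρ : τ * m < ρ := by
    have : τ * m = (1 - δ / 2) * ρ := by rw [hτ]; field_simp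
    rw [this]
    nlinarith
  have hσρ : ρ < σ * m := by
    have : σ * m = (1 + δ) * ρ := by rw [hσ]; field_simp
    rw [this]
    nlinarith
  have hσκ : σ ≤ (1 + η) * κ := by
    rw [hσ, hκ, ← mul_assoc]
    refine mul_le_mul_of_nonneg_right (le_of_eq ?_) hρm.le
    rw [hδ]
    field_simp
    ring
  -- asymptotics
  have hinv : Tendsto (fun x : ℚ => 1 + 1 / x) atTop (𝓝 1) := by
    have h1 : Tendsto (fun x : ℚ => 1 / x) atTop (𝓝 0) := by
      simpa using (tendsto_inv_atTop_zero (𝕜 := ℚ))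
    simpa using h1.const_add 1
  have hU : Tendsto (fun x : ℚ => (x ^ (m + 1) * r x) * ((1 + 1 / x) ^ m + σ * (1 / x) ^ m)) atTop
      (𝓝 ρ) := by
    have h1 : Tendsto (fun x : ℚ => 1 / x) atTop (𝓝 0) := by
      simpa using (tendsto_inv_atTop_zero (𝕜 := ℚ))
    have h2 : Tendsto (fun x : ℚ => σ * (1 / x) ^ m) atTop (𝓝 0) := by
      have := (h1.pow m).const_mul σ
      rwa [zero_pow hm.ne', mul_zero] at this
    have h3 := (hinv.pow m).add h2
    rw [one_pow, add_zero] at h3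
    simpa using h.lim.mul h3
  have hV : Tendsto (fun x : ℚ => (x ^ (m + 1) * r x) * (1 + 1 / x)) atTop (𝓝 ρ) := by
    simpa using h.lim.mul hinv
  obtain ⟨X, hX⟩ := eventually_atTop.1 ((hU.eventually_lt_const hσρ).and
    ((hV.eventually_const_lt hτρ).and (h.lim.eventually_const_lt hρ)))
  obtain ⟨N₀, hN₀⟩ := exists_nat_ge (max X 1)
  have hN1 : 1 ≤ N₀ := by
    have := (le_max_right X 1).trans hN₀
    exact_mod_cast this
  refine ⟨κ, σ, hκ0, hσκ, N₀, hN1, fun b N hN hb => ?_⟩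
  have hnX : ∀ n : ℕ, N ≤ n → X ≤ (n : ℚ) ∧ (0 : ℚ) < n := by
    intro n hn
    have h1 : (N₀ : ℚ) ≤ n := by exact_mod_cast hN.trans hn
    have h2 := hN₀.trans h1
    exact ⟨(le_max_left _ _).trans h2, lt_of_lt_of_le one_pos ((le_max_right _ _).trans h2)⟩
  have hr : ∀ n : ℕ, N ≤ n → 0 < r n := by
    intro n hn
    obtain ⟨h1, h2⟩ := hnX n hn
    have h3 := (hX n h1).2.2
    exact pos_of_mul_pos_right h3 (by positivity)
  -- the two monotone products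
  have up : ∀ n : ℕ, N ≤ n →
      (1 + σ / ((n + 1 : ℕ) : ℚ) ^ m) * b (n + 1) ≤ (1 + σ / (n : ℚ) ^ m) * b n := by
    intro n hn
    obtain ⟨h1, h2⟩ := hnX n hn
    obtain ⟨h3, h4⟩ := hb n hn
    rw [h4, ← mul_assoc]
    refine mul_le_mul_of_nonneg_right ?_ h3.le
    have k1 := (hX n h1).1
    have hn1 : ((n + 1 : ℕ) : ℚ) = (n : ℚ) + 1 := by push_cast; ring
    rw [hn1]
    have hA : 0 < (n : ℚ) ^ m := pow_pos h2 _
    have hB : 0 < ((n : ℚ) + 1) ^ m := pow_pos (by linarith) _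
    -- Bernoulli
    have hbern : (n : ℚ) ^ m + m * (n : ℚ) ^ m / n ≤ ((n : ℚ) + 1) ^ m := by
      have e1 := one_add_mul_le_pow (a := 1 / (n : ℚ)) (by
        have : (0 : ℚ) ≤ 1 / n := by positivity
        linarith) m
      have e2 : ((n : ℚ) + 1) ^ m = (n : ℚ) ^ m * (1 + 1 / n) ^ m := by
        rw [← mul_pow]
        congr 1
        field_simp
      rw [e2]
      calc (n : ℚ) ^ m + m * (n : ℚ) ^ m / n = (n : ℚ) ^ m * (1 + m * (1 / n)) := by ring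
        _ ≤ _ := mul_le_mul_of_nonneg_left e1 hA.le
    have e3 : (1 + 1 / (n : ℚ)) ^ m = ((n : ℚ) + 1) ^ m / (n : ℚ) ^ m := by
      rw [← div_pow]
      congr 1
      field_simp
    have e4 : (1 / (n : ℚ)) ^ m = 1 / (n : ℚ) ^ m := by rw [div_pow, one_pow]
    rw [e3, e4] at k1
    have k2 : r n * n * (((n : ℚ) + 1) ^ m + σ) < σ * m := by
      calc r n * n * (((n : ℚ) + 1) ^ m + σ) = (n : ℚ) ^ (m + 1) * r n *
            (((n : ℚ) + 1) ^ m / (n : ℚ) ^ m + σ * (1 / (n : ℚ) ^ m)) := by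
            rw [pow_succ]
            field_simp
        _ < _ := k1
    have k3 : r n * (((n : ℚ) + 1) ^ m + σ) < σ * m / n := by
      rw [lt_div_iff₀ h2]
      linarith
    have k4 : σ * m / n ≤ σ * (((n : ℚ) + 1) ^ m / (n : ℚ) ^ m - 1) := by
      have e5 : (m : ℚ) / n ≤ ((n : ℚ) + 1) ^ m / (n : ℚ) ^ m - 1 := by
        rw [le_sub_iff_add_le, le_div_iff₀ hA]
        calc ((m : ℚ) / n + 1) * (n : ℚ) ^ m = (n : ℚ) ^ m + m * (n : ℚ) ^ m / n := by ring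
          _ ≤ _ := hbern
      calc σ * m / n = σ * (m / n) := by ring
        _ ≤ _ := mul_le_mul_of_nonneg_left e5 hσ0.le
    have k5 : r n * (((n : ℚ) + 1) ^ m + σ) < σ * (((n : ℚ) + 1) ^ m / (n : ℚ) ^ m - 1) := by
      linarith
    have k6 : (1 + σ / ((n : ℚ) + 1) ^ m) * (1 + r n) =
        (((n : ℚ) + 1) ^ m + σ + r n * (((n : ℚ) + 1) ^ m + σ)) / ((n : ℚ) + 1) ^ m := by
      field_simp
    rw [k6, div_le_iff₀ hB]
    have k7 : (1 + σ / (n : ℚ) ^ m) * ((n : ℚ) + 1) ^ m =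
        ((n : ℚ) + 1) ^ m + σ + σ * (((n : ℚ) + 1) ^ m / (n : ℚ) ^ m - 1) := by
      field_simp
      ring
    rw [k7]
    linarith
  have down : ∀ n : ℕ, N ≤ n →
      (1 + τ / (n : ℚ) ^ m) * b n ≤ (1 + τ / ((n + 1 : ℕ) : ℚ) ^ m) * b (n + 1) := by
    intro n hn
    obtain ⟨h1, h2⟩ := hnX n hn
    obtain ⟨h3, h4⟩ := hb n hn
    rw [h4, ← mul_assoc]
    refine mul_le_mul_of_nonneg_right ?_ h3.le
    have k1 := (hX n h1).2.1
    have hn1 : ((n + 1 : ℕ) : ℚ) = (n : ℚ) + 1 := by push_cast; ring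
    rw [hn1]
    have hA : 0 < (n : ℚ) ^ m := pow_pos h2 _
    have hB : 0 < ((n : ℚ) + 1) ^ m := pow_pos (by linarith) _
    have hrn := hr n hn
    -- Bernoulli
    have hbern : ((n : ℚ) + 1) ^ m - m * ((n : ℚ) + 1) ^ m / (n + 1) ≤ (n : ℚ) ^ m := by
      have e1 := one_add_mul_le_pow (a := -(1 / ((n : ℚ) + 1))) (by
        have : 1 / ((n : ℚ) + 1) ≤ 1 := by
          rw [div_le_one (by linarith)]
          linarith
        linarith) m
      have e2 : (n : ℚ) ^ m = ((n : ℚ) + 1) ^ m * (1 + -(1 / ((n : ℚ) + 1))) ^ m := by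
        rw [← mul_pow]
        congr 1
        field_simp
        ring
      rw [e2]
      calc ((n : ℚ) + 1) ^ m - m * ((n : ℚ) + 1) ^ m / (n + 1)
          = ((n : ℚ) + 1) ^ m * (1 + m * (-(1 / ((n : ℚ) + 1)))) := by ring
        _ ≤ _ := mul_le_mul_of_nonneg_left e1 hB.le
    have k2 : τ * m < r n * (n : ℚ) ^ m * (n + 1) := by
      calc τ * m < (n : ℚ) ^ (m + 1) * r n * (1 + 1 / n) := k1
        _ = _ := by
          rw [pow_succ]
          field_simp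
    have k3 : τ * (1 - (n : ℚ) ^ m / ((n : ℚ) + 1) ^ m) ≤ r n * (n : ℚ) ^ m := by
      have e5 : 1 - (n : ℚ) ^ m / ((n : ℚ) + 1) ^ m ≤ m / ((n : ℚ) + 1) := by
        rw [sub_le_comm, le_div_iff₀ hB]
        calc (1 - (m : ℚ) / (n + 1)) * ((n : ℚ) + 1) ^ m
            = ((n : ℚ) + 1) ^ m - m * ((n : ℚ) + 1) ^ m / (n + 1) := by ring
          _ ≤ _ := hbern
      have e6 : τ * (m / ((n : ℚ) + 1)) ≤ r n * (n : ℚ) ^ m := by
        rw [← mul_div_assoc, div_le_iff₀ (by linarith)]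
        exact k2.le
      exact (mul_le_mul_of_nonneg_left e5 hτ0.le).trans e6
    have k6 : (1 + τ / ((n : ℚ) + 1) ^ m) * (1 + r n) ≥
        1 + τ / ((n : ℚ) + 1) ^ m + r n := by
      have : 0 ≤ τ / ((n : ℚ) + 1) ^ m * r n := by positivity
      nlinarith
    refine le_trans ?_ k6
    have k7 : τ / (n : ℚ) ^ m = τ / ((n : ℚ) + 1) ^ m +
        τ * (1 - (n : ℚ) ^ m / ((n : ℚ) + 1) ^ m) / (n : ℚ) ^ m := by
      field_simp
      ring
    have k8 : τ * (1 - (n : ℚ) ^ m / ((n : ℚ) + 1) ^ m) / (n : ℚ) ^ m ≤ r n := by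
      rw [div_le_iff₀ hA]
      exact k3
    rw [k7]
    linarith
  have up' : ∀ j l : ℕ, N ≤ j → j ≤ l →
      (1 + σ / (l : ℚ) ^ m) * b l ≤ (1 + σ / (j : ℚ) ^ m) * b j := by
    intro j l hj hjl
    induction l, hjl using Nat.le_induction with
    | base => exact le_rfl
    | succ l hl ih => exact (up l (by omega)).trans ih
  have down' : ∀ j l : ℕ, N ≤ j → j ≤ l →
      (1 + τ / (j : ℚ) ^ m) * b j ≤ (1 + τ / (l : ℚ) ^ m) * b l := by
    intro j l hj hjl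
    induction l, hjl using Nat.le_induction with
    | base => exact le_rfl
    | succ l hl ih => exact ih.trans (down l (by omega))
  refine ⟨fun j l hj hjl => ?_, fun n hn => ?_⟩
  · have h1 := up' j l hj hjl
    obtain ⟨-, h2⟩ := hnX j hj
    obtain ⟨-, h2'⟩ := hnX l (hj.trans hjl)
    have hA : 0 < (j : ℚ) ^ m := pow_pos h2 _
    have hbl := (hb l (hj.trans hjl)).1
    have h3 : b l ≤ (1 + σ / (l : ℚ) ^ m) * b l := by
      have : 0 ≤ σ / (l : ℚ) ^ m * b l := by positivity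
      linarith
    calc (j : ℚ) ^ m * b l ≤ (j : ℚ) ^ m * ((1 + σ / (j : ℚ) ^ m) * b j) :=
          mul_le_mul_of_nonneg_left (h3.trans h1) hA.le
      _ = _ := by field_simp
  · obtain ⟨-, h2⟩ := hnX n hn
    have hA : 0 < (n : ℚ) ^ m := pow_pos h2 _
    have hbn := (hb n hn).1
    have h3 : Tendsto (fun l : ℕ => 1 + τ / (l : ℚ) ^ m) atTop (𝓝 1) := by
      have h4 : Tendsto (fun l : ℕ => τ / (l : ℚ) ^ m) atTop (𝓝 0) :=
        Tendsto.const_div_atTop ((tendsto_pow_atTop hm.ne').comp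
          (tendsto_natCast_atTop_atTop (R := ℚ))) _
      simpa using h4.const_add 1
    have h4 : ((n : ℚ) ^ m + κ) * 1 < (n : ℚ) ^ m + τ := by linarith
    have h5 : Tendsto (fun l : ℕ => ((n : ℚ) ^ m + κ) * (1 + τ / (l : ℚ) ^ m)) atTop
        (𝓝 (((n : ℚ) ^ m + κ) * 1)) := h3.const_mul _
    filter_upwards [h5.eventually_lt_const h4, eventually_ge_atTop n] with l hl hnl
    have h6 := down' n l hn hnl
    obtain ⟨-, h2'⟩ := hnX l (hn.trans hnl)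
    have hC : 0 < 1 + τ / (l : ℚ) ^ m := by positivity
    refine lt_of_mul_lt_mul_right ?_ hC.le
    calc ((n : ℚ) ^ m + κ) * b n * (1 + τ / (l : ℚ) ^ m)
        = ((n : ℚ) ^ m + κ) * (1 + τ / (l : ℚ) ^ m) * b n := by ring
      _ < ((n : ℚ) ^ m + τ) * b n := mul_lt_mul_of_pos_right hl hbn
      _ = (n : ℚ) ^ m * ((1 + τ / (n : ℚ) ^ m) * b n) := by field_simp
      _ ≤ (n : ℚ) ^ m * ((1 + τ / (l : ℚ) ^ m) * b l) := mul_le_mul_of_nonneg_left h6 hA.le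
      _ = _ := by ring

end Pool.Agent.H43R
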