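import Pool.Agent.H43R.Hyp.HI
import Mathlib.Analysis.PSeries

/-!
# The growth `n ^ ρ`
-/

set_option autoImplicit false
set_option maxHeartbeats 1000000

namespace Pool.Agent.H43R

open Polynomial Filter Topology

lemma log_bounds {t : ℝ} (ht : 0 < t) : t - t ^ 2 ≤ Real.log (1 + t) ∧ Real.log (1 + t) ≤ t := by
  constructor
  · have h1 := Real.one_sub_inv_le_log_of_pos (show (0 : ℝ) < 1 + t by linarith)
    refine le_trans ?_ h1
    have h2 : 1 - (1 + t)⁻¹ = t / (1 + t) := by field_simp; ring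
    rw [h2, le_div_iff₀ (by linarith)]
    nlinarith [pow_pos ht 3]
  · have h1 := Real.log_le_sub_one_of_pos (show (0 : ℝ) < 1 + t by linarith)
    linarith

/-- the case `e = 1` -/
lemma bound_one {r : ℚ → ℚ} {ρ : ℚ} (h : L1 r 1 ρ) {A : ℚ}
    (hA : ∀ᶠ n : ℕ in atTop, |r n - ρ / n| ≤ A / (n : ℚ) ^ 2) {b : ℕ → ℚ} {N : ℕ} (hb : St r b N)
    {η : ℚ} (hη : 0 < η) :
    ∃ (p q : ℕ) (C₁ C₂ : ℚ), 0 < p ∧ 0 < q ∧ 0 < C₁ ∧ C₂ = C₁ * (1 + η) ^ p ∧
      ∀ᶠ n : ℕ in atTop, C₁ * (n : ℚ) ^ p < b n ^ q ∧ b n ^ q < C₂ * (n : ℚ) ^ p := by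
  have hρ := h.pos
  set p : ℕ := ρ.num.toNat with hp
  set q : ℕ := ρ.den with hq
  have hnum : 0 < ρ.num := Rat.num_pos.2 hρ
  have hp0 : 0 < p := by omega
  have hq0 : 0 < q := ρ.den_pos
  have hpq : (q : ℚ) * ρ = p := by
    have h1 : ((p : ℤ) : ℚ) = (ρ.num : ℚ) := by
      rw [hp, Int.toNat_of_nonneg hnum.le]
    have h2 := Rat.mul_den_eq_num ρ
    rw [mul_comm]
    have h3 : ((p : ℕ) : ℚ) = ((p : ℤ) : ℚ) := by push_cast; rfl
    rw [h3, h1]
    exact h2
  obtain ⟨X, hX1, hX⟩ := h.bounds (c₁ := 0) (c₂ := 2 * ρ) hρ (by linarith)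
  obtain ⟨M₁, hM₁⟩ := eventually_atTop.1 hA
  obtain ⟨M₂, hM₂⟩ := exists_nat_ge X
  set M := max N (max M₁ (max M₂ 1)) with hM
  set L : ℕ → ℝ := fun n => (q : ℝ) * Real.log (b n) - p * Real.log n with hL
  set B : ℝ := q * A + 4 * q * ρ ^ 2 + p with hB
  have hstep : ∀ n, M ≤ n → |L (n + 1) - L n| ≤ B * (1 / (n : ℝ) ^ 2) := by
    intro n hn
    have hn1 : N ≤ n := (le_max_left _ _).trans hn
    have hn2 : M₁ ≤ n := ((le_max_left _ _).trans (le_max_right _ _)).trans hn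
    have hn3 : M₂ ≤ n := ((le_max_left _ _).trans ((le_max_right _ _).trans
      (le_max_right _ _))).trans hn
    have hn4 : 1 ≤ n := ((le_max_right _ _).trans ((le_max_right _ _).trans
      (le_max_right _ _))).trans hn
    have hn0 : (0 : ℝ) < n := by exact_mod_cast hn4
    obtain ⟨h1, h2⟩ := hb n hn1
    have hXn : X ≤ (n : ℚ) := hM₂.trans (by exact_mod_cast hn3)
    obtain ⟨h3, h4⟩ := hX n hXn
    rw [pow_one] at h3 h4
    have hn0q : (0 : ℚ) < n := by exact_mod_cast hn4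
    have hr0 : 0 < r n := pos_of_mul_pos_right h3 hn0q.le
    have h5 := hM₁ n hn2
    set t : ℝ := ((r n : ℚ) : ℝ) with ht
    have ht0 : 0 < t := by rw [ht]; exact_mod_cast hr0
    have ht2 : t * n < 2 * ρ := by
      have : r n * n < 2 * ρ := by linarith
      rw [ht]
      exact_mod_cast this
    have h5' : |t - ρ / n| ≤ A / (n : ℝ) ^ 2 := by
      rw [ht]
      exact_mod_cast h5
    have hb0 : (0 : ℝ) < ((b n : ℚ) : ℝ) := by exact_mod_cast h1
    have e1 : Real.log (b (n + 1)) = Real.log (1 + t) + Real.log (b n) := by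
      rw [h2]
      push_cast
      rw [Real.log_mul (by positivity) hb0.ne']
    have e2 : Real.log ((n + 1 : ℕ) : ℝ) = Real.log (1 + 1 / n) + Real.log n := by
      rw [← Real.log_mul (by positivity) hn0.ne']
      congr 1
      push_cast
      field_simp
    have e3 : L (n + 1) - L n = q * Real.log (1 + t) - p * Real.log (1 + 1 / n) := by
      simp only [hL]
      rw [e1, e2]
      ring
    obtain ⟨k1, k2⟩ := log_bounds ht0
    obtain ⟨k3, k4⟩ := log_bounds (show (0 : ℝ) < 1 / n by positivity)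
    have k5 := abs_le.1 h5'
    have hq0' : (0 : ℝ) < q := by exact_mod_cast hq0
    have hp0' : (0 : ℝ) < p := by exact_mod_cast hp0
    have hpq' : (q : ℝ) * ρ = p := by exact_mod_cast hpq
    have k6 : t ^ 2 ≤ 4 * ρ ^ 2 * (1 / (n : ℝ) ^ 2) := by
      rw [mul_one_div, le_div_iff₀ (by positivity), ← mul_pow]
      calc (t * n) ^ 2 ≤ (2 * ρ) ^ 2 := pow_le_pow_left₀ (by positivity) ht2.le 2
        _ = _ := by ring
    have k7 : (1 / (n : ℝ)) ^ 2 = 1 / (n : ℝ) ^ 2 := by rw [div_pow, one_pow]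
    rw [k7] at k3
    have k8 : A / (n : ℝ) ^ 2 = A * (1 / (n : ℝ) ^ 2) := by ring
    rw [k8] at k5
    have k9 : (q : ℝ) * (ρ / n) = p * (1 / n) := by rw [← hpq']; ring
    rw [e3, abs_le]
    have m1 := mul_le_mul_of_nonneg_left k1 hq0'.le
    have m2 := mul_le_mul_of_nonneg_left k2 hq0'.le
    have m3 := mul_le_mul_of_nonneg_left k3 hp0'.le
    have m4 := mul_le_mul_of_nonneg_left k4 hp0'.le
    have m5 := mul_le_mul_of_nonneg_left k5.1 hq0'.le
    have m6 := mul_le_mul_of_nonneg_left k5.2 hq0'.le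
    have m7 := mul_le_mul_of_nonneg_left k6 hq0'.le
    have m8 : 0 ≤ (p : ℝ) * (1 / (n : ℝ) ^ 2) := by positivity
    have m9 : 0 ≤ (q : ℝ) * (4 * ρ ^ 2 * (1 / (n : ℝ) ^ 2)) := by positivity
    rw [hB]
    constructor
    · linarith
    · linarith
  have hcau : CauchySeq (fun n => L (n + M)) := by
    refine cauchySeq_of_summable_dist ?_
    have hs : Summable (fun n : ℕ => B * (1 / ((n + M : ℕ) : ℝ) ^ 2)) :=
      ((summable_nat_add_iff M).2 (Real.summable_one_div_nat_pow.2 one_lt_two)).mul_left B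
    refine Summable.of_nonneg_of_le (fun _ => dist_nonneg) (fun n => ?_) hs
    rw [Real.dist_eq, abs_sub_comm]
    have := hstep (n + M) (by omega)
    have e : n.succ + M = n + M + 1 := by omega
    rw [e]
    exact this
  obtain ⟨ℓ, hℓ⟩ := cauchySeq_tendsto_of_complete hcau
  have hℓ' : Tendsto L atTop (𝓝 ℓ) := (tendsto_add_atTop_iff_nat M).1 hℓ
  have hexp := (Real.continuous_exp.tendsto ℓ).comp hℓ'
  have hC0 : 0 < Real.exp ℓ := Real.exp_pos ℓ
  have hη' : (0 : ℝ) < η := by exact_mod_cast hη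
  have hlam : (1 : ℝ) < (1 + η) ^ p := one_lt_pow₀ (by linarith) hp0.ne'
  obtain ⟨C₂, hC1, hC2⟩ := exists_rat_btwn (show Real.exp ℓ < Real.exp ℓ * (1 + η) ^ p by
    nlinarith)
  have hC2' : 0 < C₂ := by
    have : (0 : ℝ) < C₂ := hC0.trans hC1
    exact_mod_cast this
  have hl0 : (0 : ℚ) < (1 + η) ^ p := by positivity
  refine ⟨p, q, C₂ / (1 + η) ^ p, C₂, hp0, hq0, by positivity, by field_simp, ?_⟩
  have hlow : ((C₂ / (1 + η) ^ p : ℚ) : ℝ) < Real.exp ℓ := by
    push_cast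
    rw [div_lt_iff₀ (by positivity)]
    exact hC2
  filter_upwards [hexp.eventually_const_lt hlow, hexp.eventually_lt_const hC1,
    eventually_ge_atTop (max N 1)] with n h1 h2 h3
  have hn1 : N ≤ n := (le_max_left _ _).trans h3
  have hn2 : 1 ≤ n := (le_max_right _ _).trans h3
  have hn0 : (0 : ℝ) < n := by exact_mod_cast hn2
  have hb0 : (0 : ℝ) < ((b n : ℚ) : ℝ) := by exact_mod_cast (hb n hn1).1
  have e1 : Real.exp (L n) = (b n : ℝ) ^ q / (n : ℝ) ^ p := by
    simp only [hL]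
    rw [Real.exp_sub, mul_comm (q : ℝ), mul_comm (p : ℝ), Real.exp_mul, Real.exp_mul,
      Real.exp_log hb0, Real.exp_log hn0, Real.rpow_natCast, Real.rpow_natCast]
  simp only [Function.comp] at h1 h2
  rw [e1] at h1 h2
  rw [lt_div_iff₀ (by positivity)] at h1
  rw [div_lt_iff₀ (by positivity)] at h2
  constructor
  · exact_mod_cast h1
  · exact_mod_cast h2

end Pool.Agent.H43R
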