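import Pool.Agent.H43R.Hyp.HJ

/-!
# Existential definitions from hypergeometric sequences whose quotients tend to `1` or `-1`
-/

set_option autoImplicit false
set_option maxHeartbeats 1000000

namespace Pool.Agent.H43R

open Polynomial Filter Topology
open Pool.Agent.TH255.HC Pool.Agent.TH255.QI Pool.Agent.K9h58.QD

variable {𝒯 : Set ℚ → Prop}

lemma QF.ne {f : (ℕ → ℚ) → ℚ} (hf : QF f) : DT 𝒯 (fun _ v => f v ≠ 0) := by
  obtain ⟨D, hD, h⟩ := hf
  refine (DT.ne h PF.zero).congr fun _ _ v => ?_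
  have hD' : (D : ℚ) ≠ 0 := by exact_mod_cast hD
  rw [Ne, Ne, mul_eq_zero]
  exact ⟨fun h => fun h' => (h'.resolve_left hD' |> h), fun h h' => h (Or.inr h')⟩

lemma QF.nonneg {f : (ℕ → ℚ) → ℚ} (hf : QF f) : DT 𝒯 (fun _ v => 0 ≤ f v) := by
  obtain ⟨D, hD, h⟩ := hf
  refine (DT.le PF.zero ((PF.int D).mul h)).congr fun _ _ v => ?_
  have hD' : (0 : ℚ) < (D : ℚ) * D := by
    have : (D : ℚ) ≠ 0 := by exact_mod_cast hD
    exact mul_self_pos.2 this
  rw [← mul_assoc]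
  constructor
  · intro h
    exact mul_nonneg hD'.le h
  · intro h
    exact nonneg_of_mul_nonneg_right h hD'

/-- the number is determined -/
lemma index_eq {P Q : ℤ[X]} (hQ : Q ≠ 0) (hne : ∀ c : ℚ, qp P ≠ C c * qp Q) {a : ℕ → ℚ}
    {n N₁ K : ℕ} (hN : N₁ ≤ n)
    (hrec : ∀ j, N₁ ≤ j → a j ≠ 0 ∧ (qp Q).eval (j : ℚ) * a (j + 1) = (qp P).eval (j : ℚ) * a j)
    (hK : K = P.natDegree + Q.natDegree + 1) {x : ℚ}
    (h : ∀ l, l < K → (qp Q).eval (x + l) * a (n + l + 1) = (qp P).eval (x + l) * a (n + l)) :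
    x = n := by
  by_contra hcon
  have hδ : x - n ≠ 0 := by
    intro h0
    apply hcon
    linarith
  obtain ⟨c, hc⟩ := shift_prop (P := qp P) (Q := qp Q) (qp_ne hQ) hδ (by
    rw [← sub_eq_zero]
    refine eq_zero_of_natDegree_lt_card_of_eval_eq_zero _ (ι := Fin K)
      (f := fun l => ((n + (l : ℕ) : ℕ) : ℚ)) ?_ (fun l => ?_) ?_
    · intro l l' hll
      have hll' : ((n + (l : ℕ) : ℕ) : ℚ) = ((n + (l' : ℕ) : ℕ) : ℚ) := hll
      have : n + (l : ℕ) = n + (l' : ℕ) := Nat.cast_injective hll'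
      exact Fin.ext (by omega)
    · have e7 := h l l.2
      obtain ⟨e4, e5⟩ := hrec (n + l) (by omega)
      rw [eval_sub, eval_mul, eval_mul, taylor_eval, taylor_eval, sub_eq_zero]
      have e6 : ((n + (l : ℕ) : ℕ) : ℚ) + (x - n) = x + (l : ℕ) := by
        push_cast
        ring
      rw [e6]
      refine mul_right_cancel₀ e4 ?_
      calc _ = (qp Q).eval ((n + (l : ℕ) : ℕ) : ℚ) *
            ((qp P).eval (x + (l : ℕ)) * a (n + l)) := by ring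
        _ = (qp Q).eval (x + (l : ℕ)) *
            ((qp Q).eval ((n + (l : ℕ) : ℕ) : ℚ) * a (n + l + 1)) := by rw [← e7]; ring
        _ = _ := by rw [e5]; ring
    · rw [Fintype.card_fin, hK]
      refine Nat.lt_succ_of_le ((natDegree_sub_le _ _).trans (max_le ?_ ?_))
      · refine natDegree_mul_le.trans ?_
        rw [natDegree_taylor, qp_deg, qp_deg]
      · refine natDegree_mul_le.trans ?_
        rw [natDegree_taylor, qp_deg, qp_deg, add_comm])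
  exact hne c hc

lemma infinite_of_dns {K : ℕ} {S : Set ℕ} {α : ℝ} (hα : 0 < α)
    (hS : Dns {n : ℕ | ∀ i, i ≤ K → n + i ∈ S} α) (M : ℕ) : ∃ n, M ≤ n ∧ n ∈ S := by
  by_contra hcon
  push Not at hcon
  obtain ⟨l, s, hl, hls⟩ := hS (⌈(M + 1) / α⌉₊)
  have h1 : {n : ℕ | s ≤ n ∧ n < s + l ∧ n ∈ {n : ℕ | ∀ i, i ≤ K → n + i ∈ S}} ⊆
      (Finset.range M : Set ℕ) := by
    rintro n ⟨-, -, h3⟩
    rw [Finset.coe_range, Set.mem_Iio]
    by_contra h4
    push Not at h4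
    exact hcon n h4 (by simpa using h3 0 (Nat.zero_le _))
  have h2 := Set.ncard_le_ncard h1 (Finset.finite_toSet _)
  rw [Set.ncard_coe_finset, Finset.card_range] at h2
  have h3 : (M + 1 : ℝ) / α ≤ l := (Nat.le_ceil _).trans (by exact_mod_cast hl)
  rw [div_le_iff₀ hα] at h3
  have h4 : (({n : ℕ | s ≤ n ∧ n < s + l ∧ n ∈ {n : ℕ | ∀ i, i ≤ K → n + i ∈ S}}.ncard : ℕ) : ℝ)
      ≤ M := by exact_mod_cast h2
  linarith

/-- the data of a sequence with quotients tending to `1` or `-1` -/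
structure Dat (P Q : ℤ[X]) (a : ℕ → ℚ) (r : ℚ → ℚ) (e : ℕ) (ρ : ℚ) (N : ℕ) : Prop where
  l1 : L1 r e ρ
  hQ : Q ≠ 0
  hne : ∀ c : ℚ, qp P ≠ C c * qp Q
  rc : ∀ j, N ≤ j → a j ≠ 0 ∧ (qp Q).eval (j : ℚ) * a (j + 1) = (qp P).eval (j : ℚ) * a j
  ev : ∀ x : ℚ, (N : ℚ) ≤ x → (qp Q).eval x ≠ 0 ∧
    (qp P).eval x ^ 2 = (1 + r x) * (qp Q).eval x ^ 2

variable {P Q : ℤ[X]} {a : ℕ → ℚ} {r : ℚ → ℚ} {e : ℕ} {ρ : ℚ} {N : ℕ}

lemma Dat.mono (h : Dat P Q a r e ρ N) {M : ℕ} (hNM : N ≤ M) : Dat P Q a r e ρ M :=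
  ⟨h.l1, h.hQ, h.hne, fun j hj => h.rc j (hNM.trans hj),
    fun x hx => h.ev x ((by exact_mod_cast hNM : (N : ℚ) ≤ M).trans hx)⟩

lemma Dat.st (h : Dat P Q a r e ρ N) : St r (fun n => a n ^ 2) N := by
  intro n hn
  obtain ⟨h1, h2⟩ := h.rc n hn
  obtain ⟨h3, h4⟩ := h.ev n (by exact_mod_cast hn)
  refine ⟨by positivity, ?_⟩
  have h5 := congrArg (· ^ 2) h2
  simp only [mul_pow] at h5
  rw [h4] at h5
  have h6 : (qp Q).eval (n : ℚ) ^ 2 ≠ 0 := pow_ne_zero _ h3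
  refine mul_left_cancel₀ h6 ?_
  simp only
  rw [h5]
  ring

/-- recognition of windows -/
theorem Dat.sound (h : Dat P Q a r e ρ N) :
    ∃ (η : ℚ) (M : ℕ), 0 < η ∧ N ≤ M ∧ 1 ≤ M ∧ (∀ x : ℚ, (M : ℚ) ≤ x → 0 < r x) ∧
      ∀ x : ℚ, (M : ℚ) ≤ x →
      ∀ ν : ℕ → ℕ, (∀ i, i ≤ P.natDegree + Q.natDegree + 1 → M ≤ ν i) →
        (ν 0 : ℚ) + 1 ≤ (1 + η) * x →
        (∀ i, i < P.natDegree + Q.natDegree + 1 →
          (qp Q).eval (x + i) * a (ν (i + 1)) = (qp P).eval (x + i) * a (ν i)) → x = ν 0 := by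
  obtain ⟨η, X, hη, hX1, hr, hgap⟩ := gap_one h.l1
  obtain ⟨M', hM'⟩ := exists_nat_ge X
  set M := max N (max M' 1) with hM
  have hMX : X ≤ (M : ℚ) := hM'.trans (by
    exact_mod_cast (le_max_left M' 1).trans (le_max_right N _))
  have hNM : N ≤ M := le_max_left _ _
  refine ⟨η, M, hη, hNM, (le_max_right M' 1).trans (le_max_right N _),
    fun x hx => hr x (hMX.trans hx), fun x hx ν hν h0 hrec => ?_⟩
  have hst := (h.mono hNM).st
  set K := P.natDegree + Q.natDegree + 1 with hK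
  have key : ∀ i, i ≤ K → ν i = ν 0 + i := by
    intro i
    induction i with
    | zero => exact fun _ => rfl
    | succ i ih =>
      intro hi
      have e1 := ih (by omega)
      have hi0 : (0 : ℚ) ≤ i := Nat.cast_nonneg _
      have e2 : (M : ℚ) ≤ x + i := by linarith
      have e3 : (ν i : ℚ) + 1 ≤ (1 + η) * (x + i) := by
        rw [e1]
        push_cast
        nlinarith
      have e4 := hgap (fun n => a n ^ 2) M hMX hst (x + i) (hMX.trans e2) (ν i) (ν (i + 1))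
        (hν i (by omega)) (hν (i + 1) hi) e3 (by
          obtain ⟨h3, h4⟩ := (h.mono hNM).ev (x + i) e2
          have h5 := congrArg (· ^ 2) (hrec i (by omega))
          simp only [mul_pow] at h5
          rw [h4] at h5
          have h6 : (qp Q).eval (x + i) ^ 2 ≠ 0 := pow_ne_zero _ h3
          refine mul_left_cancel₀ h6 ?_
          rw [h5]
          ring)
      rw [e4, e1]
      ring
  refine index_eq h.hQ h.hne (hν 0 (Nat.zero_le _)) (fun j hj => h.rc j (hNM.trans hj)) rfl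
    fun l hl => ?_
  have e1 := hrec l hl
  rw [key l hl.le, key (l + 1) hl] at e1
  exact e1

/-- the numbers recovered from windows, `G` is an additional condition -/
def Hl (K M : ℕ) (P Q : ℚ[X]) (a : ℕ → ℚ) (G : (ℕ → ℚ) → ℚ) (T : Set ℚ) : Set ℚ :=
  {x | ∃ u : ℕ → ℚ, (∀ i ∈ List.range (K + 2), u i ∈ T ∧
      ∀ l ∈ List.range M, u i ^ 2 + (-1) * a l ^ 2 ≠ 0) ∧
    (∀ i ∈ List.range K, Q.eval (x + i) * u (i + 1) + (-1) * (P.eval (x + i) * u i) = 0) ∧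
    0 ≤ x + (-(M : ℚ)) ∧
    0 ≤ G (fun k => if k % 2 = 0 then x else if k = 1 then u 0 else u (K + 1))}

theorem dt_Hl (K M : ℕ) (P Q : ℚ[X]) (a : ℕ → ℚ) (G : (ℕ → ℚ) → ℚ)
    (hG : QF (fun w => G (fun k => if k % 2 = 0 then w (2 * 0) else if k = 1 then w (2 * 0 + 1)
      else w (2 * (K + 1) + 1)))) :
    DT 𝒯 (fun T v => v 0 ∈ Hl K M P Q a G T) := by
  refine DT.exs (P := fun T v u => (∀ i ∈ List.range (K + 2), u i ∈ T ∧
      ∀ l ∈ List.range M, u i ^ 2 + (-1) * a l ^ 2 ≠ 0) ∧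
    (∀ i ∈ List.range K, Q.eval (v 0 + i) * u (i + 1) + (-1) * (P.eval (v 0 + i) * u i) = 0) ∧
    0 ≤ v 0 + (-(M : ℚ)) ∧
    0 ≤ G (fun k => if k % 2 = 0 then v 0 else if k = 1 then u 0 else u (K + 1))) ?_
  refine DT.and ?_ (DT.and ?_ (DT.and ?_ ?_))
  · refine DT.list _ fun i => (DT.mem (PF.od i)).and (DT.list _ fun l => QF.ne ?_)
    have h1 : QF (fun w : ℕ → ℚ => w (2 * i + 1) ^ 2) := QF.of_pf ((PF.od i).pow 2)
    have h2 : QF (fun _ : ℕ → ℚ => (-1) * a l ^ 2) := QF.const _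
    exact h1.add h2
  · refine DT.list _ fun i => QF.dt ?_
    have hx : QF (fun w : ℕ → ℚ => w (2 * 0) + (i : ℚ)) :=
      (QF.of_pf (PF.var (2 * 0))).add (QF.const i)
    exact ((QF.poly Q hx).mul (QF.of_pf (PF.od (i + 1)))).add
      ((QF.const (-1)).mul ((QF.poly P hx).mul (QF.of_pf (PF.od i))))
  · exact QF.nonneg ((QF.of_pf (PF.var (2 * 0))).add (QF.const (-(M : ℚ))))
  · exact QF.nonneg hG

lemma ev_new {b : ℕ → ℚ} {M : ℕ} (hb : ∀ j l : ℕ, M ≤ j → j < l → b j < b l) (c : ℚ) :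
    ∀ᶠ n : ℕ in atTop, b n ≠ c := by
  by_cases h : ∃ n₀, M ≤ n₀ ∧ b n₀ = c
  · obtain ⟨n₀, h1, h2⟩ := h
    filter_upwards [eventually_gt_atTop n₀] with n hn
    rw [← h2]
    exact (hb n₀ n h1 hn).ne'
  · push Not at h
    filter_upwards [eventually_ge_atTop M] with n hn
    exact h n hn

/-- the general step -/
theorem Dat.main (h : Dat P Q a r e ρ N) {η : ℚ} {M : ℕ} (hNM : N ≤ M) (hr : ∀ x : ℚ, (M : ℚ) ≤ x → 0 < r x)
    (hs : ∀ x : ℚ, (M : ℚ) ≤ x →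
      ∀ ν : ℕ → ℕ, (∀ i, i ≤ P.natDegree + Q.natDegree + 1 → M ≤ ν i) →
        (ν 0 : ℚ) + 1 ≤ (1 + η) * x →
        (∀ i, i < P.natDegree + Q.natDegree + 1 →
          (qp Q).eval (x + i) * a (ν (i + 1)) = (qp P).eval (x + i) * a (ν i)) → x = ν 0)
    (g : ℚ → ℚ → ℚ → ℚ)
    (hg : QF (fun w : ℕ → ℚ => g (w (2 * 0)) (w (2 * 0 + 1)) (w (2 * (P.natDegree + Q.natDegree +
      1 + 1) + 1))))
    (hg1 : ∀ (x : ℚ) (j l : ℕ), (M : ℚ) ≤ x → M ≤ j → M ≤ l → 0 ≤ g x (a j) (a l) →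
      (j : ℚ) + 1 ≤ (1 + η) * x)
    (hg2 : ∀ᶠ n : ℕ in atTop, ∀ᶠ l : ℕ in atTop, 0 ≤ g n (a n) (a l)) :
    ∃ K : ℕ, ∀ {α : ℝ}, 0 < α → ∀ {P' : (ℕ → ℚ) → Prop},
      (∀ A δ : ℝ, δ < 1 / 2 → DT (Qu A δ) (fun _ v => P' v)) →
      DT (Vals a K α) (fun _ v => P' v) := by
  set K := P.natDegree + Q.natDegree + 1 with hK
  refine ⟨K, fun {α} hα {P'} hP' => ?_⟩
  set G : (ℕ → ℚ) → ℚ := fun s => g (s 0) (s 1) (s 3) with hGdef
  refine dt_sub (Φ := Hl K M (qp P) (qp Q) a G) (𝒯' := fun T => (∀ x ∈ T, ∃ z : ℤ, x = z) ∧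
    Banach (MvPolynomial.X 0 : MvPolynomial (Fin 1) ℤ) (α / 2) T) ?_
    (dt_Hl K M (qp P) (qp Q) a G (by simpa [hGdef] using hg)) (dt_banach _ (by positivity) hP')
  have hst := (h.mono hNM).st
  have hrN : ∀ n : ℕ, M ≤ n → 0 < r n := fun n hn => hr n (by exact_mod_cast hn)
  have hlt : ∀ j l : ℕ, M ≤ j → j < l → a j ^ 2 < a l ^ 2 := fun j l hj hjl => hst.lt hrN hj hjl
  have hnew : ∀ᶠ n : ℕ in atTop, ∀ l ∈ List.range M, a n ^ 2 + (-1) * a l ^ 2 ≠ 0 := by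
    have h1 : ∀ᶠ n : ℕ in atTop, ∀ l ∈ Finset.range M, a n ^ 2 ≠ a l ^ 2 :=
      (Filter.eventually_all_finset _).2 fun l _ => ev_new (b := fun n => a n ^ 2) hlt _
    filter_upwards [h1] with n hn l hl h0
    exact hn l (by simpa using hl) (by linarith)
  rintro T ⟨S, hS, rfl⟩
  refine ⟨?_, ?_⟩
  · rintro x ⟨u, hu1, hu2, hx, hG⟩
    have hx' : (M : ℚ) ≤ x := by linarith
    have hex : ∀ i, ∃ n, i < K + 2 → M ≤ n ∧ a n = u i := by
      intro i
      by_cases hi : i < K + 2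
      · obtain ⟨⟨n, -, hn⟩, h1⟩ := hu1 i (List.mem_range.2 hi)
        refine ⟨n, fun _ => ⟨?_, hn⟩⟩
        by_contra hcon
        push Not at hcon
        apply h1 n (List.mem_range.2 hcon)
        rw [← hn]
        ring
      · exact ⟨0, fun h => absurd h hi⟩
    choose ν hν using hex
    refine ⟨ν 0, ?_⟩
    push_cast
    refine hs x hx' ν (fun i hi => (hν i (by omega)).1) ?_ fun i hi => ?_
    · refine hg1 x (ν 0) (ν (K + 1)) hx' (hν 0 (by omega)).1 (hν (K + 1) (by omega)).1 ?_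
      rw [(hν 0 (by omega)).2, (hν (K + 1) (by omega)).2]
      simpa [hGdef] using hG
    · have e1 := hu2 i (List.mem_range.2 hi)
      rw [← (hν i (by omega)).2, ← (hν (i + 1) (by omega)).2] at e1
      linarith
  · obtain ⟨n₁, hn₁⟩ := eventually_atTop.1 (hnew.and hg2)
    refine banach_of_dns (k := K) (J := 0) (N := M) (n₁ := n₁) hα (by simpa using hS)
      fun n hn hN hw => ?_
    rw [add_zero] at hw
    obtain ⟨M₂, hM₂⟩ := eventually_atTop.1 (hn₁ n hn).2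
    obtain ⟨l, hl, hlS⟩ := infinite_of_dns hα hS (max M₂ n₁)
    have hl1 : M₂ ≤ l := (le_max_left _ _).trans hl
    have hl2 : n₁ ≤ l := (le_max_right _ _).trans hl
    refine ⟨fun i => if i ≤ K then a (n + i) else a l, fun i hi => ?_, fun i hi => ?_, ?_, ?_⟩
    · by_cases hiK : i ≤ K
      · simp only [if_pos hiK]
        exact ⟨⟨n + i, hw i hiK, rfl⟩, (hn₁ (n + i) (by omega)).1⟩
      · simp only [if_neg hiK]
        exact ⟨⟨l, hlS, rfl⟩, (hn₁ l hl2).1⟩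
    · have hi' := List.mem_range.1 hi
      simp only [if_pos hi'.le, if_pos (show i + 1 ≤ K by omega)]
      have e1 := (h.rc (n + i) (by omega)).2
      push_cast at e1
      rw [← add_assoc, e1]
      ring
    · have : (M : ℚ) ≤ n := by exact_mod_cast hN
      linarith
    · have := hM₂ l hl1
      simpa [hGdef] using this

end Pool.Agent.H43R
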