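import Pool.Agent.H43R.Hyp.HK

/-!
# All hypergeometric sequences which are not geometric
-/

set_option autoImplicit false
set_option maxHeartbeats 1000000

namespace Pool.Agent.H43R

open Polynomial Filter Topology
open Pool.Agent.TH255.HC Pool.Agent.TH255.QI Pool.Agent.K9h58.QD

lemma lim_ratio {D G : ℚ[X]} {e : ℕ} (hD : D ≠ 0) (hG : G ≠ 0)
    (hdeg : D.natDegree + e = G.natDegree) :
    Tendsto (fun x : ℚ => x ^ e * (D.eval x / G.eval x)) atTop
      (𝓝 (D.leadingCoeff / G.leadingCoeff)) := by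
  have h0 : (X ^ e * D) ≠ 0 := mul_ne_zero (pow_ne_zero _ X_ne_zero) hD
  have h1 : (X ^ e * D).degree = G.degree := by
    rw [degree_eq_natDegree h0, degree_eq_natDegree hG, natDegree_mul (pow_ne_zero _ X_ne_zero) hD,
      natDegree_X_pow, ← hdeg, add_comm]
  have h2 := div_tendsto_atTop_leadingCoeff_div_of_degree_eq (X ^ e * D) G h1
  have h3 : (X ^ e * D).leadingCoeff = D.leadingCoeff := by
    rw [leadingCoeff_mul, leadingCoeff_X_pow, one_mul]
  rw [h3] at h2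
  refine h2.congr fun x => ?_
  rw [eval_mul, eval_pow, eval_X]
  ring

lemma near_one {D G : ℚ[X]} (hD : D ≠ 0) (hG : G ≠ 0) (hdeg : D.natDegree + 1 = G.natDegree) :
    ∃ A : ℚ, ∀ᶠ n : ℕ in atTop, |D.eval (n : ℚ) / G.eval (n : ℚ) -
      D.leadingCoeff / G.leadingCoeff / n| ≤ A / (n : ℚ) ^ 2 := by
  set ρ := D.leadingCoeff / G.leadingCoeff with hρ
  have hlG : G.leadingCoeff ≠ 0 := leadingCoeff_ne_zero.2 hG
  have hρ0 : ρ ≠ 0 := div_ne_zero (leadingCoeff_ne_zero.2 hD) hlG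
  set Z := X * D - C ρ * G with hZ
  have h0 : (X * D) ≠ 0 := mul_ne_zero X_ne_zero hD
  have h1 : (X * D).degree = G.degree := by
    rw [degree_eq_natDegree h0, degree_eq_natDegree hG, natDegree_mul X_ne_zero hD,
      natDegree_X, ← hdeg, add_comm]
  have h2 : (C ρ * G).degree = G.degree := degree_C_mul hρ0
  have h3 : Z.degree < (X * D).degree := by
    refine degree_sub_lt_left (h1.trans h2.symm) h0 ?_
    rw [leadingCoeff_mul, leadingCoeff_X, one_mul, leadingCoeff_mul, leadingCoeff_C, hρ]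
    field_simp
  have h4 : (X * Z).degree ≤ G.degree := by
    by_cases hz : Z = 0
    · rw [hz, mul_zero, degree_zero]
      exact bot_le
    · rw [h1] at h3
      have h5 := natDegree_lt_natDegree hz h3
      rw [degree_eq_natDegree (mul_ne_zero X_ne_zero hz), degree_eq_natDegree hG,
        natDegree_mul X_ne_zero hz, natDegree_X]
      exact_mod_cast (by omega : 1 + Z.natDegree ≤ G.natDegree)
  obtain ⟨c, hc⟩ := (Polynomial.isBigO_atTop_of_degree_le (X * Z) G h4).bound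
  refine ⟨⌈c⌉₊, ?_⟩
  filter_upwards [tendsto_natCast_atTop_atTop.eventually hc,
    (tendsto_natCast_atTop_atTop (R := ℚ)).eventually (eventually_ne' hG),
    eventually_gt_atTop 0] with n h5 h6 h7
  have hn : (0 : ℚ) < n := by exact_mod_cast h7
  have h8 : D.eval (n : ℚ) / G.eval (n : ℚ) - ρ / n =
      ((X * Z).eval (n : ℚ) / G.eval (n : ℚ)) / (n : ℚ) ^ 2 := by
    rw [hZ]
    simp only [eval_mul, eval_sub, eval_X, eval_C]
    field_simp
  rw [h8, abs_div, abs_of_pos (show (0 : ℚ) < (n : ℚ) ^ 2 by positivity)]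
  refine div_le_div_of_nonneg_right ?_ (by positivity)
  rw [abs_div, div_le_iff₀ (abs_pos.2 h6)]
  have h9 : ‖(X * Z).eval (n : ℚ)‖ ≤ c * ‖G.eval (n : ℚ)‖ := h5
  have h10 : ((|(X * Z).eval (n : ℚ)| : ℚ) : ℝ) ≤ c * ((|G.eval (n : ℚ)| : ℚ) : ℝ) := by
    rw [Rat.cast_abs, Rat.cast_abs]
    exact h9
  have h11 : ((|(X * Z).eval (n : ℚ)| : ℚ) : ℝ) ≤ (⌈c⌉₊ : ℝ) * ((|G.eval (n : ℚ)| : ℚ) : ℝ) :=
    h10.trans (mul_le_mul_of_nonneg_right (Nat.le_ceil c) (by positivity))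
  exact_mod_cast h11

theorem dt_hyp_pos {P Q : ℤ[X]} (hQ : Q ≠ 0) (hne : ∀ c : ℚ, qp P ≠ C c * qp Q)
    (hd : P.natDegree = Q.natDegree) (hl : |P.leadingCoeff| = |Q.leadingCoeff|)
    (hpos : 0 < ((qp P) ^ 2 - (qp Q) ^ 2).leadingCoeff) {a : ℕ → ℚ} (ha : HypRec P Q a) :
    ∃ K : ℕ, ∀ {α : ℝ}, 0 < α → ∀ {P' : (ℕ → ℚ) → Prop},
      (∀ A δ : ℝ, δ < 1 / 2 → DT (Qu A δ) (fun _ v => P' v)) →
      DT (Vals a K α) (fun _ v => P' v) := by
  set D := (qp P) ^ 2 - (qp Q) ^ 2 with hDdef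
  set G := (qp Q) ^ 2 with hGdef
  have hG : G ≠ 0 := pow_ne_zero _ (qp_ne hQ)
  have hD : D ≠ 0 := by
    rintro h0
    rw [h0, leadingCoeff_zero] at hpos
    exact lt_irrefl _ hpos
  have hP : P ≠ 0 := by
    rintro rfl
    apply hne 0
    simp [qp]
  have hlc : ∀ F : ℤ[X], (qp F).leadingCoeff = (F.leadingCoeff : ℚ) := by
    intro F
    unfold qp
    rw [leadingCoeff_map_of_injective (Int.castRingHom ℚ).injective_int]
    rfl
  have hGl : 0 < G.leadingCoeff := by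
    rw [hGdef, leadingCoeff_pow, hlc]
    have : (Q.leadingCoeff : ℚ) ≠ 0 := by exact_mod_cast leadingCoeff_ne_zero.2 hQ
    positivity
  have hdeg' : D.natDegree < G.natDegree := by
    have h1 : ((qp P) ^ 2).degree = G.degree := by
      rw [hGdef, degree_pow, degree_pow, degree_eq_natDegree (qp_ne hP),
        degree_eq_natDegree (qp_ne hQ), qp_deg, qp_deg, hd]
    have h2 : D.degree < ((qp P) ^ 2).degree := by
      refine degree_sub_lt_left h1 (pow_ne_zero _ (qp_ne hP)) ?_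
      rw [leadingCoeff_pow, leadingCoeff_pow, hlc, hlc]
      have h3 : (|P.leadingCoeff| : ℤ) ^ 2 = |Q.leadingCoeff| ^ 2 := by rw [hl]
      rw [sq_abs, sq_abs] at h3
      exact_mod_cast h3
    rw [h1] at h2
    exact natDegree_lt_natDegree hD h2
  obtain ⟨e, he1, he⟩ : ∃ e, 1 ≤ e ∧ D.natDegree + e = G.natDegree :=
    ⟨G.natDegree - D.natDegree, by omega, by omega⟩
  set ρ := D.leadingCoeff / G.leadingCoeff with hρ
  set r : ℚ → ℚ := fun x => D.eval x / G.eval x with hr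
  have hL1 : L1 r e ρ := ⟨div_pos hpos hGl, lim_ratio hD hG he⟩
  obtain ⟨N₁, hN₁⟩ := eventually_atTop.1 ha
  obtain ⟨X₀, hX₀⟩ := eventually_atTop.1 (eventually_ne' (qp_ne hQ))
  obtain ⟨N₂, hN₂⟩ := exists_nat_ge X₀
  set N := max N₁ N₂ with hN
  have hdat : Dat P Q a r e ρ N := by
    refine ⟨hL1, hQ, hne, fun j hj => ?_, fun x hx => ?_⟩
    · rw [qp_nat, qp_nat]
      exact hN₁ j ((le_max_left _ _).trans hj)
    · have h1 : (N₂ : ℚ) ≤ N := by exact_mod_cast le_max_right N₁ N₂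
      have h2 := hX₀ x (by linarith)
      refine ⟨h2, ?_⟩
      rw [hr, hDdef, hGdef]
      simp only [eval_sub, eval_pow]
      have h3 : (qp Q).eval x ^ 2 ≠ 0 := pow_ne_zero _ h2
      field_simp
      ring
  obtain ⟨η, M, hη, hNM, hM1, hrM, hs⟩ := hdat.sound
  have hM0 : (1 : ℚ) ≤ M := by exact_mod_cast hM1
  set η' := η / 2 with hη'
  have hη0 : 0 < η' := by positivity
  obtain ⟨N₃, hN₃⟩ := exists_nat_ge (1 / η')
  -- the remaining argument for one polynomial `g`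
  have fin : ∀ (N₄ : ℕ) (g : ℚ → ℚ → ℚ → ℚ),
      QF (fun w : ℕ → ℚ => g (w (2 * 0)) (w (2 * 0 + 1)) (w (2 * (P.natDegree + Q.natDegree +
        1 + 1) + 1))) →
      (∀ (x : ℚ) (j l : ℕ), 1 ≤ x → N₄ ≤ j → N₄ ≤ l → M ≤ j → M ≤ l → 0 ≤ g x (a j) (a l) →
        (j : ℚ) ≤ (1 + η') * x) →
      (∀ᶠ n : ℕ in atTop, ∀ᶠ l : ℕ in atTop, 0 ≤ g n (a n) (a l)) →
      ∃ K : ℕ, ∀ {α : ℝ}, 0 < α → ∀ {P' : (ℕ → ℚ) → Prop},
        (∀ A δ : ℝ, δ < 1 / 2 → DT (Qu A δ) (fun _ v => P' v)) →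
        DT (Vals a K α) (fun _ v => P' v) := by
    intro N₄ g hg h1 h2
    set M' := max M (max N₃ N₄) with hM'
    have hMM : M ≤ M' := le_max_left _ _
    have hMM' : (M : ℚ) ≤ M' := by exact_mod_cast hMM
    have h3 : N₃ ≤ M' := (le_max_left _ _).trans (le_max_right _ _)
    have h4 : N₄ ≤ M' := (le_max_right _ _).trans (le_max_right _ _)
    refine hdat.main (η := η) (M := M') (hNM.trans hMM) (fun x hx => hrM x (hMM'.trans hx))
      (fun x hx ν hν h0 hrec => hs x (hMM'.trans hx) ν (fun i hi => hMM.trans (hν i hi)) h0 hrec)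
      g hg (fun x j l hx hj hl h0 => ?_) h2
    have h5 := h1 x j l (by linarith) (h4.trans hj) (h4.trans hl) (hMM.trans hj) (hMM.trans hl) h0
    have h6 : 1 / η' ≤ x := by
      have : (N₃ : ℚ) ≤ M' := by exact_mod_cast h3
      linarith
    rw [div_le_iff₀ hη0] at h6
    have h7 : η = 2 * η' := by rw [hη']; ring
    rw [h7]
    linarith
  have hst := (hdat.mono hNM).st
  have hrN : ∀ n : ℕ, M ≤ n → 0 < r n := fun n hn => hrM n (by exact_mod_cast hn)
  rcases Nat.lt_or_ge 1 e with he2 | he2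
  · -- `e ≥ 2`
    obtain ⟨m, rfl⟩ : ∃ m, e = m + 1 := ⟨e - 1, by omega⟩
    have hm : 0 < m := by omega
    obtain ⟨κ, σ, hκ, hσκ, N₀, hN0, hb⟩ := bound_two hm hL1 hη0
    set M₂ := max M N₀ with hM₂
    have hst2 : St r (fun n => a n ^ 2) M₂ := hst.mono (le_max_left _ _)
    obtain ⟨hb1, hb2⟩ := hb _ M₂ (le_max_right _ _) hst2
    refine fin M₂ (fun x u y => x ^ m * y ^ 2 + (-1) * ((x ^ m + κ) * u ^ 2)) ?_ ?_ ?_
    · have hx : QF (fun w : ℕ → ℚ => w (2 * 0) ^ m) := QF.of_pf ((PF.var (2 * 0)).pow m)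
      exact (hx.mul (QF.of_pf ((PF.od _).pow 2))).add
        ((QF.const (-1)).mul ((hx.add (QF.const κ)).mul (QF.of_pf ((PF.od 0).pow 2))))
    · intro x j l hx hj hl hjM hlM h0
      have hbj := (hst2 j hj).1
      have hx0 : 0 < x ^ m := pow_pos (by linarith) _
      have h1 : (x ^ m + κ) * a j ^ 2 ≤ x ^ m * a l ^ 2 := by linarith
      have hjl : j ≤ l := by
        by_contra hcon
        push Not at hcon
        have h2 : a l ^ 2 < a j ^ 2 := hst.lt hrN hlM hcon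
        have h3 := mul_lt_mul_of_pos_left h2 hx0
        simp only at hbj
        nlinarith [mul_pos hκ hbj]
      have h2 := hb1 j l hj hjl
      simp only at hbj h2
      have hj1 : (1 : ℚ) ≤ j := by
        have : 1 ≤ j := hM1.trans hjM
        exact_mod_cast this
      have hj0 : 0 < (j : ℚ) ^ m := pow_pos (by linarith) _
      have h3 : (x ^ m + κ) * (j : ℚ) ^ m ≤ x ^ m * ((j : ℚ) ^ m + σ) := by
        refine le_of_mul_le_mul_right ?_ hbj
        calc (x ^ m + κ) * (j : ℚ) ^ m * a j ^ 2 = (j : ℚ) ^ m * ((x ^ m + κ) * a j ^ 2) := by ring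
          _ ≤ (j : ℚ) ^ m * (x ^ m * a l ^ 2) := mul_le_mul_of_nonneg_left h1 hj0.le
          _ = x ^ m * ((j : ℚ) ^ m * a l ^ 2) := by ring
          _ ≤ x ^ m * (((j : ℚ) ^ m + σ) * a j ^ 2) := mul_le_mul_of_nonneg_left h2 hx0.le
          _ = _ := by ring
      have h4 : κ * (j : ℚ) ^ m ≤ κ * ((1 + η') * x ^ m) := by
        have h5 := mul_le_mul_of_nonneg_right hσκ hx0.le
        nlinarith
      have h5 : (j : ℚ) ^ m ≤ (1 + η') * x ^ m := le_of_mul_le_mul_left h4 hκ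
      have h6 : (1 + η') * x ^ m ≤ ((1 + η') * x) ^ m := by
        rw [mul_pow]
        refine mul_le_mul_of_nonneg_right ?_ hx0.le
        exact le_self_pow₀ (by linarith) hm.ne'
      exact le_of_pow_le_pow_left₀ hm.ne' (by positivity) (h5.trans h6)
    · filter_upwards [eventually_ge_atTop M₂] with n hn
      filter_upwards [hb2 n hn] with l hl
      linarith
  · -- `e = 1`
    have he3 : e = 1 := by omega
    subst he3
    obtain ⟨A, hA⟩ := near_one hD hG he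
    obtain ⟨p, q, C₁, C₂, hp, hq, hC₁, hC₂, hev⟩ := bound_one hL1 hA hst hη0
    obtain ⟨N₅, hN₅⟩ := eventually_atTop.1 hev
    refine fin N₅ (fun x u _ => C₂ * x ^ p + (-1) * (u ^ 2) ^ q) ?_ ?_ ?_
    · exact ((QF.const C₂).mul (QF.of_pf ((PF.var (2 * 0)).pow p))).add
        ((QF.const (-1)).mul (QF.of_pf (((PF.od 0).pow 2).pow q)))
    · intro x j l hx hj hl hjM hlM h0
      have h1 := (hN₅ j hj).1
      have h2 : C₁ * (j : ℚ) ^ p < C₁ * ((1 + η') * x) ^ p := by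
        rw [mul_pow, ← mul_assoc, ← hC₂]
        linarith
      have h3 : (j : ℚ) ^ p < ((1 + η') * x) ^ p := lt_of_mul_lt_mul_left h2 hC₁.le
      exact (lt_of_pow_lt_pow_left₀ p (by positivity) h3).le
    · filter_upwards [eventually_ge_atTop N₅] with n hn
      refine Eventually.of_forall fun l => ?_
      have := (hN₅ n hn).2
      linarith

/-- **All hypergeometric sequences which are not geometric.** -/
theorem dt_hyp_all {P Q : ℤ[X]} (hQ : Q ≠ 0) (hne : ∀ c : ℚ, qp P ≠ C c * qp Q)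
    {a : ℕ → ℚ} (ha : HypRec P Q a) :
    ∃ K : ℕ, ∀ {α : ℝ}, 0 < α → ∀ {P' : (ℕ → ℚ) → Prop},
      (∀ A δ : ℝ, δ < 1 / 2 → DT (Qu A δ) (fun _ v => P' v)) →
      DT (Vals a K α) (fun _ v => P' v) := by
  by_cases hlim : P.natDegree = Q.natDegree ∧ |P.leadingCoeff| = |Q.leadingCoeff|
  · obtain ⟨hd, hl⟩ := hlim
    have hP : P ≠ 0 := by
      rintro rfl
      apply hne 0
      simp [qp]
    have hne' : ∀ c : ℚ, qp Q ≠ C c * qp P := by
      intro c hc
      have hc0 : c ≠ 0 := by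
        rintro rfl
        apply qp_ne hQ
        rw [hc, C_0, zero_mul]
      apply hne c⁻¹
      rw [hc, ← mul_assoc, ← C_mul, inv_mul_cancel₀ hc0, C_1, one_mul]
    have hD : (qp P) ^ 2 - (qp Q) ^ 2 ≠ 0 := by
      intro h0
      rw [sub_eq_zero, sq_eq_sq_iff_eq_or_eq_neg] at h0
      rcases h0 with h0 | h0
      · exact hne 1 (by rw [C_1, one_mul]; exact h0)
      · exact hne (-1) (by rw [C_neg, C_1, neg_one_mul]; exact h0)
    rcases lt_or_gt_of_ne (leadingCoeff_ne_zero.2 hD) with h | h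
    · have h2 : (qp Q) ^ 2 - (qp P) ^ 2 = -((qp P) ^ 2 - (qp Q) ^ 2) := by ring
      obtain ⟨K, hK⟩ := dt_hyp_pos hP hne' hd.symm hl.symm (by
        rw [h2, leadingCoeff_neg]
        linarith) ha.inv
      exact ⟨K, fun hα _ hP' => dt_inv (hK hα hP')⟩
    · exact dt_hyp_pos hQ hne hd hl h ha
  · exact dt_hyp hQ hne hlim ha

end Pool.Agent.H43R
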